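import Mathlib

/-!
# Unipotent rational representations of finitely generated torsion-free nilpotent groups

`exists_unipotent_rep`: if `G` is a finitely generated torsion-free nilpotent group and `g ≠ 1`, then
there is a `ℚ`-algebra `A`, a homomorphism `ρ : G →* Aˣ` and `k` such that every `k`-fold product of
elements `ρ x - 1` is zero, and `ρ g ≠ 1`.
-/

set_option autoImplicit false

open scoped commutatorElement

namespace Pool.Agent.Helper34.UnipotentReps

/-- `G` has enough unipotent representations over `ℚ`. -/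
def Enough (G : Type) [Group G] : Prop :=
  ∀ g : G, g ≠ 1 → ∃ (A : Type) (_ : Ring A) (_ : Algebra ℚ A) (ρ : G →* Aˣ) (k : ℕ),
    (∀ l : List G, l.length = k → (l.map (fun x => ((ρ x : Aˣ) : A) - 1)).prod = 0) ∧ ρ g ≠ 1

section Step

variable {Γ : Type} [Group Γ]


/-- The element `x` of the group algebra. -/
noncomputable abbrev e (x : Γ) : MonoidAlgebra ℚ Γ := MonoidAlgebra.single x 1

theorem e_mul (x y : Γ) : e x * e y = e (x * y) := by
  simp [e, MonoidAlgebra.single_mul_single]

theorem e_one : e (1 : Γ) = 1 := rfl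

/-- Generators of the weight filtration: products of elements `n - 1`, `n ∈ H i` of weight `i + 1`. -/
inductive Gen (H : ℕ → Subgroup Γ) : ℕ → MonoidAlgebra ℚ Γ → Prop
  | base (x : Γ) : Gen H 0 (e x)
  | step {w : ℕ} {y : MonoidAlgebra ℚ Γ} {i : ℕ} {n : Γ} (hn : n ∈ H i) (hy : Gen H w y) :
      Gen H (w + (i + 1)) ((e n - 1) * y)

/-- The weight filtration. -/
noncomputable def Fil (H : ℕ → Subgroup Γ) (w : ℕ) : Submodule ℚ (MonoidAlgebra ℚ Γ) :=
  Submodule.span ℚ {y | ∃ v, w ≤ v ∧ Gen H v y}

theorem Gen.mem {H : ℕ → Subgroup Γ} {w : ℕ} {y : MonoidAlgebra ℚ Γ} (h : Gen H w y) :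
    y ∈ Fil H w := Submodule.subset_span ⟨w, le_rfl, h⟩

theorem Fil.anti (H : ℕ → Subgroup Γ) {v w : ℕ} (h : v ≤ w) : Fil H w ≤ Fil H v := by
  apply Submodule.span_mono
  rintro y ⟨u, hu, hy⟩
  exact ⟨u, h.trans hu, hy⟩

theorem Fil.zero (H : ℕ → Subgroup Γ) : Fil H 0 = ⊤ := by
  rw [eq_top_iff]
  intro y _
  induction y using MonoidAlgebra.induction_on with
  | of x => exact (Gen.base x).mem
  | add x y hx hy => exact Submodule.add_mem _ (hx trivial) (hy trivial)
  | smul r x hx => exact Submodule.smul_mem _ _ (hx trivial)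

theorem Fil.sub_one_mul (H : ℕ → Subgroup Γ) {w i : ℕ} {n : Γ} (hn : n ∈ H i)
    {y : MonoidAlgebra ℚ Γ} (hy : y ∈ Fil H w) : (e n - 1) * y ∈ Fil H (w + (i + 1)) := by
  induction hy using Submodule.span_induction with
  | mem y hy =>
    obtain ⟨v, hv, hy⟩ := hy
    exact Fil.anti H (by omega) (Gen.step hn hy).mem
  | zero => simp
  | add x y _ _ hx hy => rw [mul_add]; exact Submodule.add_mem _ hx hy
  | smul r x _ hx => rw [mul_smul_comm]; exact Submodule.smul_mem _ _ hx

theorem Fil.mul_left (H : ℕ → Subgroup Γ) {w i : ℕ} {n : Γ} (hn : n ∈ H i)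
    {y : MonoidAlgebra ℚ Γ} (hy : y ∈ Fil H w) : e n * y ∈ Fil H w := by
  have h := Fil.sub_one_mul H hn hy
  have : e n * y = (e n - 1) * y + y := by noncomm_ring
  rw [this]
  exact Submodule.add_mem _ (Fil.anti H (by omega) h) hy

variable (f : Γ →* Multiplicative ℤ) (t : Γ)

/-- The twisted action of `γ` on the group algebra: `y ↦ γ y t^{-f γ}`. -/
noncomputable def act (γ : Γ) : MonoidAlgebra ℚ Γ →ₗ[ℚ] MonoidAlgebra ℚ Γ :=
  (LinearMap.mulRight ℚ (e (t ^ (-(f γ).toAdd)))).comp (LinearMap.mulLeft ℚ (e γ))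

theorem act_apply (γ : Γ) (y : MonoidAlgebra ℚ Γ) :
    act f t γ y = e γ * y * e (t ^ (-(f γ).toAdd)) := rfl

theorem act_one : act f t 1 = LinearMap.id := by
  apply LinearMap.ext
  intro y
  simp [act_apply, e_one]

theorem act_mul (γ δ : Γ) : act f t (γ * δ) = (act f t γ).comp (act f t δ) := by
  apply LinearMap.ext
  intro y
  simp only [act_apply, LinearMap.comp_apply]
  rw [← e_mul, map_mul, toAdd_mul, neg_add, add_comm, zpow_add, ← e_mul]
  noncomm_ring

variable {f t}

theorem act_sub_mem {H : ℕ → Subgroup Γ} (ht : f t = Multiplicative.ofAdd 1)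
    (h0 : f.ker ≤ H 0) (hH : ∀ i, ∀ n ∈ H i, ∀ γ : Γ, ⁅γ, n⁆ ∈ H (i + 1)) (γ : Γ) {w : ℕ}
    {y : MonoidAlgebra ℚ Γ} (hy : y ∈ Fil H w) : act f t γ y - y ∈ Fil H (w + 1) := by
  have key : ∀ w (y : MonoidAlgebra ℚ Γ), Gen H w y → act f t γ y - y ∈ Fil H (w + 1) := by
    intro w y hy
    induction hy with
    | base x =>
      have hmem : γ * x * t ^ (-(f γ).toAdd) * x⁻¹ ∈ H 0 := by
        apply h0
        rw [MonoidHom.mem_ker]
        simp only [map_mul, map_zpow, map_inv, ht]
        apply Multiplicative.toAdd.injective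
        simp
      have := Fil.sub_one_mul H hmem (Gen.base (H := H) x).mem
      rw [act_apply, e_mul, e_mul]
      rw [sub_mul, one_mul, e_mul] at this
      simpa using this
    | @step w y i n hn hy ih =>
      have h1 : ⁅γ, n⁆ ∈ H (i + 1) := hH i n hn γ
      have hay : act f t γ y ∈ Fil H w := by
        have := Submodule.add_mem _ (Fil.anti H (Nat.le_succ w) ih) hy.mem
        simpa using this
      have h2 := Fil.sub_one_mul H h1 (Fil.mul_left H hn hay)
      have h3 := Fil.sub_one_mul H hn ih
      have heq : act f t γ ((e n - 1) * y) - (e n - 1) * y =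
          (e ⁅γ, n⁆ - 1) * (e n * act f t γ y) + (e n - 1) * (act f t γ y - y) := by
        rw [act_apply, act_apply]
        have : e ⁅γ, n⁆ * (e n * (e γ * y * e (t ^ (-(f γ).toAdd)))) =
            e γ * (e n * y) * e (t ^ (-(f γ).toAdd)) := by
          have h : e ⁅γ, n⁆ * e n * e γ = e γ * e n := by
            rw [e_mul, e_mul, e_mul]; congr 1; simp [commutatorElement_def]
          simp only [← mul_assoc] at h ⊢
          rw [h]
        have h4 : (e ⁅γ, n⁆ - 1) * (e n * (e γ * y * e (t ^ (-(f γ).toAdd)))) =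
            e ⁅γ, n⁆ * (e n * (e γ * y * e (t ^ (-(f γ).toAdd)))) -
              e n * (e γ * y * e (t ^ (-(f γ).toAdd))) := by
          rw [sub_mul, one_mul]
        rw [h4, this]
        noncomm_ring
      rw [heq]
      refine Submodule.add_mem _ (Fil.anti H (by omega) h2) (Fil.anti H (by omega) h3)
  induction hy using Submodule.span_induction with
  | mem y hy =>
    obtain ⟨v, hv, hy⟩ := hy
    exact Fil.anti H (by omega) (key v y hy)
  | zero => simp
  | add x y _ _ hx hy =>
    rw [map_add, add_sub_add_comm]; exact Submodule.add_mem _ hx hy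
  | smul r x _ hx => rw [map_smul, ← smul_sub]; exact Submodule.smul_mem _ _ hx

theorem act_mem {H : ℕ → Subgroup Γ} (ht : f t = Multiplicative.ofAdd 1)
    (h0 : f.ker ≤ H 0) (hH : ∀ i, ∀ n ∈ H i, ∀ γ : Γ, ⁅γ, n⁆ ∈ H (i + 1)) (γ : Γ) (w : ℕ) :
    Fil H w ≤ (Fil H w).comap (act f t γ) := by
  intro y hy
  have h := act_sub_mem (f := f) (t := t) ht h0 hH γ hy
  have := Submodule.add_mem _ (Fil.anti H (Nat.le_succ w) h) hy
  simpa using this

/-- The unipotent representation on `ℚ[Γ] / Fil K`. -/
noncomputable def rep (H : ℕ → Subgroup Γ) (ht : f t = Multiplicative.ofAdd 1)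
    (h0 : f.ker ≤ H 0) (hH : ∀ i, ∀ n ∈ H i, ∀ γ : Γ, ⁅γ, n⁆ ∈ H (i + 1)) (K : ℕ) :
    Γ →* Module.End ℚ (MonoidAlgebra ℚ Γ ⧸ Fil H K) where
  toFun γ := (Fil H K).mapQ (Fil H K) (act f t γ) (act_mem ht h0 hH γ K)
  map_one' := by
    apply LinearMap.ext
    intro y
    obtain ⟨y, rfl⟩ := Submodule.mkQ_surjective _ y
    simp [act_one]
  map_mul' γ δ := by
    apply LinearMap.ext
    intro y
    obtain ⟨y, rfl⟩ := Submodule.mkQ_surjective _ y
    simp [act_mul]

theorem rep_mk (H : ℕ → Subgroup Γ) (ht : f t = Multiplicative.ofAdd 1)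
    (h0 : f.ker ≤ H 0) (hH : ∀ i, ∀ n ∈ H i, ∀ γ : Γ, ⁅γ, n⁆ ∈ H (i + 1)) (K : ℕ) (γ : Γ)
    (y : MonoidAlgebra ℚ Γ) :
    rep H ht h0 hH K γ (Submodule.Quotient.mk y) = Submodule.Quotient.mk (act f t γ y) := rfl

theorem rep_prod (H : ℕ → Subgroup Γ) (ht : f t = Multiplicative.ofAdd 1)
    (h0 : f.ker ≤ H 0) (hH : ∀ i, ∀ n ∈ H i, ∀ γ : Γ, ⁅γ, n⁆ ∈ H (i + 1)) (K : ℕ)
    (l : List Γ) : ∀ (w : ℕ) (y : MonoidAlgebra ℚ Γ), y ∈ Fil H w →
      ∃ z ∈ Fil H (w + l.length), (l.map (fun x => rep H ht h0 hH K x - 1)).prod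
        (Submodule.Quotient.mk y) = Submodule.Quotient.mk z := by
  induction l with
  | nil => intro w y hy; exact ⟨y, by simpa using hy, by simp⟩
  | cons a l ih =>
    intro w y hy
    obtain ⟨z, hz, hz'⟩ := ih w y hy
    refine ⟨act f t a z - z, ?_, ?_⟩
    · have := act_sub_mem (f := f) (t := t) ht h0 hH a hz
      rw [List.length_cons, ← add_assoc]
      exact this
    · rw [List.map_cons, List.prod_cons, Module.End.mul_apply, hz', LinearMap.sub_apply,
        rep_mk, Module.End.one_apply, Submodule.Quotient.mk_sub]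

theorem rep_prod_zero (H : ℕ → Subgroup Γ) (ht : f t = Multiplicative.ofAdd 1)
    (h0 : f.ker ≤ H 0) (hH : ∀ i, ∀ n ∈ H i, ∀ γ : Γ, ⁅γ, n⁆ ∈ H (i + 1)) (K : ℕ)
    (l : List Γ) (hl : l.length = K) :
    (l.map (fun x => rep H ht h0 hH K x - 1)).prod = 0 := by
  apply LinearMap.ext
  intro y
  obtain ⟨y, rfl⟩ := Submodule.mkQ_surjective _ y
  obtain ⟨z, hz, hz'⟩ := rep_prod H ht h0 hH K l 0 y (by rw [Fil.zero]; trivial)
  rw [Submodule.mkQ_apply, hz', LinearMap.zero_apply, Submodule.Quotient.mk_eq_zero]
  rw [zero_add, hl] at hz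
  exact hz

section Sep

variable {A : Type} [Ring A] [Algebra ℚ A] (ρ : f.ker →* Aˣ)

/-- `x t^{-f x}` as an element of the kernel. -/
def prj (ht : f t = Multiplicative.ofAdd 1) (x : Γ) : f.ker :=
  ⟨x * t ^ (-(f x).toAdd), by
    rw [MonoidHom.mem_ker]
    simp only [map_mul, map_zpow, ht]
    apply Multiplicative.toAdd.injective
    simp⟩

/-- The additive map `x ↦ ρ (x t^{-f x})`. -/
noncomputable def Lmap (ht : f t = Multiplicative.ofAdd 1) : MonoidAlgebra ℚ Γ →+ A :=
  MonoidAlgebra.liftNC (algebraMap ℚ A).toAddMonoidHom (fun x => ((ρ (prj ht x) : Aˣ) : A))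

theorem Lmap_e (ht : f t = Multiplicative.ofAdd 1) (x : Γ) :
    Lmap ρ ht (e x) = ((ρ (prj ht x) : Aˣ) : A) := by
  simp [Lmap, e, MonoidAlgebra.liftNC_single]

theorem Lmap_mul (ht : f t = Multiplicative.ofAdd 1) (n : f.ker) (y : MonoidAlgebra ℚ Γ) :
    Lmap ρ ht (e (n : Γ) * y) = ((ρ n : Aˣ) : A) * Lmap ρ ht y := by
  induction y using MonoidAlgebra.induction_on with
  | of x =>
    have : prj ht ((n : Γ) * x) = n * prj ht x := by
      apply Subtype.ext
      have hn : f n = 1 := n.2
      simp [prj, hn, mul_assoc]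
    show Lmap ρ ht (e (n : Γ) * e x) = _ * Lmap ρ ht (e x)
    rw [e_mul, Lmap_e, Lmap_e, this]
    simp
  | add x y hx hy => rw [mul_add, map_add, map_add, mul_add, hx, hy]
  | smul r x hx =>
    rw [mul_smul_comm, map_rat_smul, map_rat_smul, hx, mul_smul_comm]

theorem Lmap_gen (ht : f t = Multiplicative.ofAdd 1) {H : ℕ → Subgroup Γ} {c : ℕ}
    (hk : ∀ i, H i ≤ f.ker) (hc : ∀ i, c ≤ i → H i = ⊥) {w : ℕ} {y : MonoidAlgebra ℚ Γ}
    (hy : Gen H w y) : Lmap ρ ht y = 0 ∨ ∃ (l : List f.ker) (a : A), w ≤ c * l.length ∧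
      Lmap ρ ht y = (l.map (fun x => ((ρ x : Aˣ) : A) - 1)).prod * a := by
  induction hy with
  | base x => right; exact ⟨[], Lmap ρ ht (e x), by simp, by simp⟩
  | @step w y i n hn hy ih =>
    by_cases hi : c ≤ i
    · left
      rw [hc i hi, Subgroup.mem_bot] at hn
      subst hn
      simp [e_one]
    · have hL : Lmap ρ ht ((e n - 1) * y) = (((ρ ⟨n, hk i hn⟩ : Aˣ) : A) - 1) * Lmap ρ ht y := by
        have := Lmap_mul ρ ht ⟨n, hk i hn⟩ y
        rw [sub_mul, one_mul, map_sub, sub_mul, one_mul, ← this]
      rcases ih with ih | ⟨l, a, hw, hl⟩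
      · left; rw [hL, ih, mul_zero]
      · right
        refine ⟨⟨n, hk i hn⟩ :: l, a, ?_, ?_⟩
        · rw [List.length_cons, mul_add, mul_one]; omega
        · rw [hL, hl, List.map_cons, List.prod_cons, mul_assoc]

omit [Algebra ℚ A] in
theorem prod_eq_zero_of_le {k : ℕ}
    (hρ : ∀ l : List f.ker, l.length = k → (l.map (fun x => ((ρ x : Aˣ) : A) - 1)).prod = 0)
    (l : List f.ker) (hl : k ≤ l.length) : (l.map (fun x => ((ρ x : Aˣ) : A) - 1)).prod = 0 := by
  rw [← List.take_append_drop k l, List.map_append, List.prod_append,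
    hρ _ (by simp [hl]), zero_mul]

theorem Lmap_fil (ht : f t = Multiplicative.ofAdd 1) {H : ℕ → Subgroup Γ} {c : ℕ} (hc0 : 0 < c)
    (hk : ∀ i, H i ≤ f.ker) (hc : ∀ i, c ≤ i → H i = ⊥) {k : ℕ}
    (hρ : ∀ l : List f.ker, l.length = k → (l.map (fun x => ((ρ x : Aˣ) : A) - 1)).prod = 0)
    {y : MonoidAlgebra ℚ Γ} (hy : y ∈ Fil H (c * k)) : Lmap ρ ht y = 0 := by
  induction hy using Submodule.span_induction with
  | mem y hy =>
    obtain ⟨v, hv, hy⟩ := hy
    rcases Lmap_gen ρ ht hk hc hy with h | ⟨l, a, hw, hl⟩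
    · exact h
    · rw [hl, prod_eq_zero_of_le ρ hρ l (Nat.le_of_mul_le_mul_left (hv.trans hw) hc0), zero_mul]
  | zero => simp
  | add x y _ _ hx hy => rw [map_add, hx, hy, add_zero]
  | smul r x _ hx => rw [map_rat_smul, hx, smul_zero]

end Sep

end Step

/-- Adding an infinite cyclic quotient preserves having enough unipotent representations. -/
theorem Enough.step {Γ : Type} [Group Γ] [Group.IsNilpotent Γ] (f : Γ →* Multiplicative ℤ)
    (hf : Function.Surjective f) (hN : Enough f.ker) : Enough Γ := by
  intro g hg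
  by_cases hfg : f g = 1
  · obtain ⟨t, ht⟩ := hf (Multiplicative.ofAdd 1)
    obtain ⟨A, _, _, ρ, k, hρ, hρg⟩ := hN ⟨g, hfg⟩ (by
      intro h; apply hg; exact congrArg Subtype.val h)
    obtain ⟨c, hc⟩ := (Subgroup.nilpotent_iff_lowerCentralSeries (G := Γ)).1 inferInstance
    let H : ℕ → Subgroup Γ := fun i => f.ker ⊓ Subgroup.lowerCentralSeries ⊤ i
    have h0 : f.ker ≤ H 0 := by
      intro x hx
      exact ⟨hx, by simp⟩
    have hH : ∀ i, ∀ n ∈ H i, ∀ γ : Γ, ⁅γ, n⁆ ∈ H (i + 1) := by
      intro i n hn γ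
      refine Subgroup.mem_inf.2 ⟨?_, ?_⟩
      · rw [MonoidHom.mem_ker, map_commutatorElement]
        exact (Commute.all _ _).commutator_eq
      · rw [Subgroup.lowerCentralSeries_succ, Subgroup.commutator_comm]
        exact Subgroup.commutator_mem_commutator (Subgroup.mem_top γ) (Subgroup.mem_inf.1 hn).2
    have hk : ∀ i, H i ≤ f.ker := fun i => inf_le_left
    have hcc : ∀ i, c + 1 ≤ i → H i = ⊥ := by
      intro i hi
      rw [eq_bot_iff]
      refine inf_le_right.trans ?_
      rw [← hc]
      exact Subgroup.lowerCentralSeries_antitone _ (by omega)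
    refine ⟨Module.End ℚ (MonoidAlgebra ℚ Γ ⧸ Fil H ((c + 1) * k)), inferInstance, inferInstance,
      (rep H ht h0 hH ((c + 1) * k)).toHomUnits, (c + 1) * k, ?_, ?_⟩
    · intro l hl
      exact rep_prod_zero H ht h0 hH _ l hl
    · intro h
      have h1 : rep H ht h0 hH ((c + 1) * k) g = 1 := by
        have := congrArg Units.val h
        simpa using this
      have h2 := congrArg (fun φ => φ (Submodule.Quotient.mk (1 : MonoidAlgebra ℚ Γ))) h1
      simp only [rep_mk, Module.End.one_apply] at h2
      rw [Submodule.Quotient.eq] at h2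
      have h3 := Lmap_fil ρ ht (Nat.succ_pos c) hk hcc hρ h2
      rw [map_sub, sub_eq_zero] at h3
      rw [act_apply, hfg, ← e_one, e_mul, e_mul, Lmap_e, Lmap_e] at h3
      apply hρg
      apply Units.ext
      have h4 : prj ht (g * 1 * t ^ (-(Multiplicative.toAdd (1 : Multiplicative ℤ)))) =
          (⟨g, hfg⟩ : f.ker) := by
        apply Subtype.ext
        simp [prj, hfg]
      have h5 : prj ht (1 : Γ) = (1 : f.ker) := by
        apply Subtype.ext
        simp [prj]
      rw [h4, h5] at h3
      simpa using h3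
  · let τ : Γ →* DualNumber ℚ :=
      { toFun := fun x => 1 + (((f x).toAdd : ℤ) : ℚ) • DualNumber.eps
        map_one' := by simp
        map_mul' := fun x y => by
          have h : (DualNumber.eps : DualNumber ℚ) * DualNumber.eps = 0 := DualNumber.eps_mul_eps
          simp only [map_mul, toAdd_mul, Int.cast_add, add_smul, add_mul, one_mul, mul_add,
            mul_one, smul_mul_smul_comm, h, smul_zero, add_zero]
          abel }
    refine ⟨DualNumber ℚ, inferInstance, inferInstance, τ.toHomUnits, 2, ?_, ?_⟩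
    · intro l hl
      obtain ⟨x, y, rfl⟩ := List.length_eq_two.1 hl
      have h : (DualNumber.eps : DualNumber ℚ) * DualNumber.eps = 0 := DualNumber.eps_mul_eps
      simp [τ, h]
    · intro h
      have h1 : τ g = 1 := by
        have := congrArg Units.val h
        simpa using this
      have h2 := congrArg TrivSqZeroExt.snd h1
      simp [τ] at h2
      exact hfg h2

/-! ### Passing from quotients to groups -/

theorem Enough.of_injective {G G' : Type} [Group G] [Group G'] (ι : G →* G')
    (hι : Function.Injective ι) (h : Enough G') : Enough G := by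
  intro g hg
  obtain ⟨A, _, _, ρ, k, hρ, hρg⟩ := h (ι g) (fun h => hg (hι (by rw [h, map_one])))
  refine ⟨A, inferInstance, inferInstance, ρ.comp ι, k, ?_, hρg⟩
  intro l hl
  have := hρ (l.map ι) (by simpa using hl)
  rw [List.map_map] at this
  exact this

/-- `Q` is good if every nilpotent extension of `Q` by a group with enough unipotent representations
has enough unipotent representations. -/
def Good (Q : Type) [Group Q] : Prop :=
  ∀ (G : Type) [Group G] [Group.IsNilpotent G] (φ : G →* Q), Function.Surjective φ →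
    Enough φ.ker → Enough G

theorem Good.enough {Q : Type} [Group Q] [Group.IsNilpotent Q] (h : Good Q) : Enough Q := by
  refine h Q (MonoidHom.id Q) Function.surjective_id ?_
  intro x hx
  exact absurd (Subtype.ext (show (x : Q) = 1 from x.2)) hx

theorem good_of_subsingleton (Q : Type) [Group Q] [Subsingleton Q] : Good Q := by
  intro G _ _ φ _ hE
  let ι : G →* φ.ker := (MonoidHom.id G).codRestrict φ.ker (fun x => Subsingleton.elim _ _)
  refine Enough.of_injective ι ?_ hE
  intro x y h
  exact congrArg (fun z : φ.ker => (z : G)) h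

theorem good_int : Good (Multiplicative ℤ) := by
  intro G _ _ φ hφ hE
  exact Enough.step φ hφ hE

theorem Good.ext {Q P : Type} [Group Q] [Group P] (ψ : Q →* P) (hψ : Function.Surjective ψ)
    (hN : Good ψ.ker) (hP : Good P) : Good Q := by
  intro G _ _ φ hφ hE
  have hG' : Enough (ψ.comp φ).ker := by
    let φ' : (ψ.comp φ).ker →* ψ.ker :=
      (φ.comp (Subgroup.subtype _)).codRestrict ψ.ker (fun x => x.2)
    refine hN _ φ' ?_ ?_
    · rintro ⟨q, hq⟩
      obtain ⟨g, rfl⟩ := hφ q
      exact ⟨⟨g, hq⟩, rfl⟩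
    · let ι : φ'.ker →* φ.ker :=
        ((Subgroup.subtype _).comp (Subgroup.subtype _)).codRestrict φ.ker
          (fun x => congrArg Subtype.val x.2)
      refine Enough.of_injective ι ?_ hE
      intro x y h
      exact Subtype.ext (Subtype.ext (congrArg (fun z : φ.ker => (z : G)) h))
  exact hP _ (ψ.comp φ) (hψ.comp hφ) hG'

theorem Good.of_equiv {Q P : Type} [Group Q] [Group P] (e : Q ≃* P) (h : Good Q) : Good P := by
  intro G _ _ φ hφ hE
  refine h G (e.symm.toMonoidHom.comp φ) (e.symm.surjective.comp hφ) ?_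
  let ι : (e.symm.toMonoidHom.comp φ).ker →* φ.ker :=
    (Subgroup.subtype _).codRestrict φ.ker (fun x => by
      have h1 : e.symm (φ x.1) = 1 := x.2
      have h2 : φ x.1 = 1 := by simpa using h1
      exact h2)
  refine Enough.of_injective ι ?_ hE
  intro x y h
  exact Subtype.ext (congrArg (fun z : φ.ker => (z : G)) h)

theorem good_pi (m : ℕ) : Good (Multiplicative (Fin m → ℤ)) := by
  induction m with
  | zero => exact good_of_subsingleton _
  | succ m ih =>
    let ψ : Multiplicative (Fin (m + 1) → ℤ) →* Multiplicative ℤ :=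
      AddMonoidHom.toMultiplicative (Pi.evalAddMonoidHom (fun _ => ℤ) 0)
    refine Good.ext ψ ?_ ?_ good_int
    · intro z
      exact ⟨Multiplicative.ofAdd (fun _ => z.toAdd), rfl⟩
    · let e : Multiplicative (Fin m → ℤ) ≃* ψ.ker :=
        { toFun := fun v => ⟨Multiplicative.ofAdd (Fin.cons 0 v.toAdd), rfl⟩
          invFun := fun v => Multiplicative.ofAdd (Fin.tail v.1.toAdd)
          left_inv := fun v => by simp
          right_inv := fun v => by
            apply Subtype.ext
            apply Multiplicative.toAdd.injective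
            have h : v.1.toAdd 0 = 0 := v.2
            simp only [toAdd_ofAdd]
            rw [← h, Fin.cons_self_tail]
          map_mul' := fun v w => by
            apply Subtype.ext
            apply Multiplicative.toAdd.injective
            funext i
            refine Fin.cases ?_ (fun j => ?_) i <;> simp }
      exact ih.of_equiv e

/-! ### Finitely generated nilpotent groups -/

/-- Every subgroup is finitely generated. -/
def Noeth (G : Type) [Group G] : Prop := ∀ H : Subgroup G, H.FG

theorem Noeth.ext {G P : Type} [Group G] [Group P] (φ : G →* P) (hN : Noeth φ.ker)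
    (hP : Noeth P) : Noeth G := by
  intro H
  obtain ⟨S', hS'⟩ := hP (H.map φ)
  obtain ⟨T', hT'⟩ := hN (H.subgroupOf φ.ker)
  classical
  have hlift : ∀ s ∈ S', ∃ h ∈ H, φ h = s := by
    intro s hs
    have : s ∈ H.map φ := by rw [← hS']; exact Subgroup.subset_closure hs
    simpa using this
  choose! lift hliftH hliftφ using hlift
  let U : Finset G := S'.image lift ∪ T'.image (fun t : φ.ker => (t : G))
  refine ⟨U, le_antisymm ?_ ?_⟩
  · rw [Subgroup.closure_le]
    intro u hu
    simp only [U, Finset.coe_union, Finset.coe_image, Set.mem_union, Set.mem_image,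
      Finset.mem_coe] at hu
    rcases hu with ⟨s, hs, rfl⟩ | ⟨t, ht, rfl⟩
    · exact hliftH s hs
    · have : t ∈ H.subgroupOf φ.ker := by rw [← hT']; exact Subgroup.subset_closure ht
      exact this
  · intro h hh
    have h1 : φ h ∈ (Subgroup.closure (U : Set G)).map φ := by
      have h2 : H.map φ ≤ (Subgroup.closure (U : Set G)).map φ := by
        rw [← hS', Subgroup.closure_le]
        intro s hs
        refine ⟨lift s, Subgroup.subset_closure ?_, hliftφ s hs⟩
        simp only [U, Finset.coe_union, Finset.coe_image]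
        exact Or.inl ⟨s, hs, rfl⟩
      exact h2 ⟨h, hh, rfl⟩
    obtain ⟨u, hu, hu'⟩ := h1
    have huH : u ∈ H := by
      have : Subgroup.closure (U : Set G) ≤ H := by
        rw [Subgroup.closure_le]
        intro u hu
        simp only [U, Finset.coe_union, Finset.coe_image, Set.mem_union, Set.mem_image,
          Finset.mem_coe] at hu
        rcases hu with ⟨s, hs, rfl⟩ | ⟨t, ht, rfl⟩
        · exact hliftH s hs
        · have : t ∈ H.subgroupOf φ.ker := by rw [← hT']; exact Subgroup.subset_closure ht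
          exact this
      exact this hu
    have h3 : h * u⁻¹ ∈ φ.ker := by rw [MonoidHom.mem_ker, map_mul, map_inv, hu', mul_inv_cancel]
    have h4 : (⟨h * u⁻¹, h3⟩ : φ.ker) ∈ Subgroup.closure (T' : Set φ.ker) := by
      rw [hT']
      exact H.mul_mem hh (H.inv_mem huH)
    have h5 : h * u⁻¹ ∈ Subgroup.closure (U : Set G) := by
      have h6 : (Subgroup.closure (T' : Set φ.ker)).map φ.ker.subtype ≤
          Subgroup.closure (U : Set G) := by
        rw [MonoidHom.map_closure, Subgroup.closure_le]
        rintro _ ⟨t, ht, rfl⟩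
        apply Subgroup.subset_closure
        simp only [U, Finset.coe_union, Finset.coe_image]
        exact Or.inr ⟨t, ht, rfl⟩
      exact h6 ⟨_, h4, rfl⟩
    have := Subgroup.mul_mem _ h5 hu
    simpa using this

theorem noeth_of_comm (G : Type) [Group G] (hc : ∀ a b : G, a * b = b * a) (hfg : Group.FG G) :
    Noeth G := by
  let _ : CommGroup G := { ‹Group G› with mul_comm := hc }
  have : Group.FG G := hfg
  have h1 : Module.Finite ℤ (Additive G) := Module.Finite.iff_addGroup_fg.2 inferInstance
  have h2 : IsNoetherian ℤ (Additive G) := inferInstance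
  intro H
  have h3 := h2.noetherian (AddSubgroup.toIntSubmodule (Subgroup.toAddSubgroup H))
  rw [Subgroup.fg_iff_add_fg]
  rw [Submodule.fg_iff_addSubgroup_fg] at h3
  simpa using h3

theorem noeth_of_lcs (c : ℕ) : ∀ (G : Type) [Group G], Group.FG G →
    Subgroup.lowerCentralSeries (⊤ : Subgroup G) c = ⊥ → Noeth G := by
  induction c with
  | zero =>
    intro G _ _ hc H
    have hsub : Subsingleton G := by
      rw [Subgroup.lowerCentralSeries_zero] at hc
      refine ⟨fun a b => ?_⟩
      have ha : a ∈ (⊤ : Subgroup G) := trivial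
      have hb : b ∈ (⊤ : Subgroup G) := trivial
      rw [hc, Subgroup.mem_bot] at ha hb
      rw [ha, hb]
    have : H = ⊥ := Subsingleton.elim _ _
    rw [this]
    exact Subgroup.FG.bot
  | succ c ih =>
    intro G _ hfg hc
    set Z : Subgroup G := Subgroup.lowerCentralSeries ⊤ c with hZ
    have hZn : Z.Normal := by rw [hZ]; infer_instance
    have hcen : Z ≤ Subgroup.center G := by
      intro z hz
      rw [Subgroup.mem_center_iff]
      intro g
      have : ⁅z, g⁆ ∈ Subgroup.lowerCentralSeries (⊤ : Subgroup G) (c + 1) := by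
        rw [Subgroup.lowerCentralSeries_succ]
        exact Subgroup.commutator_mem_commutator hz (Subgroup.mem_top g)
      rw [hc, Subgroup.mem_bot, commutatorElement_eq_one_iff_mul_comm] at this
      exact this.symm
    have hQfg : Group.FG (G ⧸ Z) := inferInstance
    have hQ : Noeth (G ⧸ Z) := by
      apply ih _ hQfg
      have := Subgroup.map_lowerCentralSeries (S := (⊤ : Subgroup G)) (QuotientGroup.mk' Z) c
      rw [Subgroup.map_top_of_surjective _ (QuotientGroup.mk'_surjective Z)] at this
      rw [← this, ← hZ, Subgroup.map_eq_bot_iff, QuotientGroup.ker_mk']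
    have hker : (QuotientGroup.mk' Z).ker = Z := QuotientGroup.ker_mk' Z
    apply Noeth.ext (QuotientGroup.mk' Z) _ hQ
    have hZfg : Z.FG := by
      cases c with
      | zero =>
        rw [hZ, Subgroup.lowerCentralSeries_zero]
        exact Group.fg_def.1 hfg
      | succ d =>
        obtain ⟨S', hS'⟩ := hQ ((Subgroup.lowerCentralSeries ⊤ d).map (QuotientGroup.mk' Z))
        obtain ⟨T, hT⟩ := Group.fg_def.1 hfg
        classical
        have hlift : ∀ s ∈ S', ∃ h ∈ Subgroup.lowerCentralSeries (⊤ : Subgroup G) d,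
            QuotientGroup.mk' Z h = s := by
          intro s hs
          have : s ∈ (Subgroup.lowerCentralSeries ⊤ d).map (QuotientGroup.mk' Z) := by
            rw [← hS']; exact Subgroup.subset_closure hs
          simpa using this
        choose! lift hliftH hliftφ using hlift
        let U : Finset G := (S' ×ˢ T).image (fun p => ⁅lift p.1, p.2⁆)
        refine ⟨U, ?_⟩
        set W := Subgroup.closure (U : Set G) with hW
        have hWZ : W ≤ Z := by
          rw [hW, Subgroup.closure_le]
          intro u hu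
          simp only [U, Finset.coe_image, Set.mem_image, Finset.mem_coe, Finset.mem_product] at hu
          obtain ⟨⟨s, t⟩, ⟨hs, ht⟩, rfl⟩ := hu
          show ⁅lift s, t⁆ ∈ Z
          rw [hZ, Subgroup.lowerCentralSeries_succ]
          exact Subgroup.commutator_mem_commutator (hliftH s hs) (Subgroup.mem_top t)
        have hWn : W.Normal := by
          refine ⟨fun n hn g => ?_⟩
          have := Subgroup.mem_center_iff.1 (hcen (hWZ hn)) g
          rw [this, mul_inv_cancel_right]
          exact hn
        -- elements commuting with everything modulo W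
        let C : Subgroup G := (Subgroup.center (G ⧸ W)).comap (QuotientGroup.mk' W)
        have hC : ∀ x : G, (∀ g : G, ⁅x, g⁆ ∈ W) → x ∈ C := by
          intro x hx
          rw [Subgroup.mem_comap, Subgroup.mem_center_iff]
          intro q
          obtain ⟨g, rfl⟩ := QuotientGroup.mk'_surjective W q
          have h1 : QuotientGroup.mk' W ⁅x, g⁆ = 1 := (QuotientGroup.eq_one_iff _).2 (hx g)
          rw [map_commutatorElement, commutatorElement_eq_one_iff_mul_comm] at h1
          exact h1.symm
        have hC' : ∀ x ∈ C, ∀ g : G, ⁅x, g⁆ ∈ W := by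
          intro x hx g
          rw [Subgroup.mem_comap, Subgroup.mem_center_iff] at hx
          have h1 := hx (QuotientGroup.mk' W g)
          have h2 : QuotientGroup.mk' W ⁅x, g⁆ = 1 := by
            rw [map_commutatorElement, commutatorElement_eq_one_iff_mul_comm]
            exact h1.symm
          exact (QuotientGroup.eq_one_iff _).1 h2
        have hZC : Z ≤ C := by
          intro z hz
          apply hC
          intro g
          have := Subgroup.mem_center_iff.1 (hcen hz) g
          have h1 : ⁅z, g⁆ = 1 := commutatorElement_eq_one_iff_mul_comm.2 this.symm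
          rw [h1]
          exact W.one_mem
        have hSC : ∀ s ∈ S', lift s ∈ C := by
          intro s hs
          rw [Subgroup.mem_comap, Subgroup.mem_center_iff]
          intro q
          obtain ⟨g, rfl⟩ := QuotientGroup.mk'_surjective W q
          have hg : g ∈ Subgroup.closure (T : Set G) := by rw [hT]; trivial
          induction hg using Subgroup.closure_induction with
          | mem t ht =>
            have h1 : QuotientGroup.mk' W ⁅lift s, t⁆ = 1 := by
              refine (QuotientGroup.eq_one_iff _).2 (Subgroup.subset_closure ?_)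
              simp only [U, Finset.coe_image, Set.mem_image, Finset.mem_coe, Finset.mem_product]
              exact ⟨(s, t), ⟨hs, ht⟩, rfl⟩
            rw [map_commutatorElement, commutatorElement_eq_one_iff_mul_comm] at h1
            exact h1.symm
          | one => simp
          | mul x y _ _ hx hy =>
            rw [map_mul, mul_assoc, hy, ← mul_assoc, hx, mul_assoc]
          | inv x _ hx =>
            rw [map_inv]
            exact (Commute.inv_left (show Commute _ _ from hx)).eq
        have hdC : Subgroup.lowerCentralSeries (⊤ : Subgroup G) d ≤ C := by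
          intro x hx
          have h1 : QuotientGroup.mk' Z x ∈ C.map (QuotientGroup.mk' Z) := by
            have h2 : (Subgroup.lowerCentralSeries (⊤ : Subgroup G) d).map (QuotientGroup.mk' Z) ≤
                C.map (QuotientGroup.mk' Z) := by
              rw [← hS', Subgroup.closure_le]
              intro s hs
              exact ⟨lift s, hSC s hs, hliftφ s hs⟩
            exact h2 ⟨x, hx, rfl⟩
          obtain ⟨y, hy, hyx⟩ := h1
          have h3 : y⁻¹ * x ∈ Z := by
            rw [← QuotientGroup.eq_one_iff]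
            have : QuotientGroup.mk' Z (y⁻¹ * x) = 1 := by
              rw [map_mul, map_inv, hyx, inv_mul_cancel]
            exact this
          have := C.mul_mem hy (hZC h3)
          simpa using this
        apply le_antisymm hWZ
        rw [hZ, Subgroup.lowerCentralSeries_succ, Subgroup.commutator_le]
        intro x hx g _
        exact hC' x (hdC hx) g
    rw [hker]
    apply noeth_of_comm
    · rintro ⟨a, ha⟩ ⟨b, hb⟩
      exact Subtype.ext ((Subgroup.mem_center_iff.1 (hcen ha) b).symm)
    · exact (Group.fg_iff_subgroup_fg Z).2 hZfg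

theorem noeth_of_nilpotent (G : Type) [Group G] [Group.IsNilpotent G] (hfg : Group.FG G) :
    Noeth G := by
  obtain ⟨c, hc⟩ := (Subgroup.nilpotent_iff_lowerCentralSeries (G := G)).1 inferInstance
  exact noeth_of_lcs c G hfg hc

/-- Torsion-free. -/
def TF (G : Type) [Group G] : Prop := ∀ g : G, ∀ n : ℕ, 0 < n → g ^ n = 1 → g = 1

theorem tf_center_quot (G : Type) [Group G] (h : TF (Subgroup.center G)) :
    TF (Subgroup.center (G ⧸ Subgroup.center G)) := by
  rintro ⟨q, hq⟩ n hn hqn
  obtain ⟨x, rfl⟩ := QuotientGroup.mk'_surjective (Subgroup.center G) q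
  apply Subtype.ext
  show QuotientGroup.mk' (Subgroup.center G) x = 1
  have hxn : x ^ n ∈ Subgroup.center G := by
    have := congrArg Subtype.val hqn
    rw [Subgroup.coe_pow, ← map_pow] at this
    exact (QuotientGroup.eq_one_iff _).1 this
  refine (QuotientGroup.eq_one_iff _).2 ?_
  rw [Subgroup.mem_center_iff]
  intro g
  have hcz : ⁅g, x⁆ ∈ Subgroup.center G := by
    rw [← QuotientGroup.eq_one_iff]
    have : QuotientGroup.mk' (Subgroup.center G) ⁅g, x⁆ = 1 := by
      rw [map_commutatorElement, commutatorElement_eq_one_iff_mul_comm]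
      exact Subgroup.mem_center_iff.1 hq _
    exact this
  have hpow : ∀ m : ℕ, g * x ^ m * g⁻¹ = ⁅g, x⁆ ^ m * x ^ m := by
    intro m
    have h1 : g * x * g⁻¹ = ⁅g, x⁆ * x := by simp [commutatorElement_def]
    have h2 : g * x ^ m * g⁻¹ = (g * x * g⁻¹) ^ m := by rw [conj_pow]
    rw [h2, h1]
    have h3 : Commute ⁅g, x⁆ x := (Subgroup.mem_center_iff.1 hcz x).symm
    exact h3.mul_pow m
  have h1 : ⁅g, x⁆ ^ n = 1 := by
    have h2 := hpow n
    have h3 : g * x ^ n * g⁻¹ = x ^ n := by
      rw [Subgroup.mem_center_iff.1 hxn g, mul_inv_cancel_right]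
    rw [h3] at h2
    exact (mul_eq_right.1 h2.symm)
  have h2 := h ⟨⁅g, x⁆, hcz⟩ n hn (Subtype.ext (by simpa using h1))
  have h3 : ⁅g, x⁆ = 1 := congrArg Subtype.val h2
  exact commutatorElement_eq_one_iff_mul_comm.1 h3

theorem tf_of_center (G : Type) [Group G] [Group.IsNilpotent G] :
    TF (Subgroup.center G) → TF G := by
  refine Group.nilpotent_center_quotient_ind (P := fun G _ _ => TF (Subgroup.center G) → TF G) G
    ?_ ?_
  · intro G _ _ _ g n _ _
    exact Subsingleton.elim _ _
  · intro G _ _ ih h g n hn hgn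
    have h1 := ih (tf_center_quot G h)
    have h2 : (g : G ⧸ Subgroup.center G) = 1 := h1 _ n hn (by
      rw [← QuotientGroup.mk_pow, hgn, QuotientGroup.mk_one])
    have h3 : g ∈ Subgroup.center G := (QuotientGroup.eq_one_iff _).1 h2
    have h4 := h ⟨g, h3⟩ n hn (Subtype.ext hgn)
    exact congrArg Subtype.val h4

theorem tf_quot_center (G : Type) [Group G] [Group.IsNilpotent G] (h : TF G) :
    TF (G ⧸ Subgroup.center G) := by
  apply tf_of_center
  apply tf_center_quot
  intro g n hn hgn
  exact Subtype.ext (h g n hn (congrArg Subtype.val hgn))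

theorem good_of_comm (A : Type) [CommGroup A] (hfg : Group.FG A) (htf : TF A) : Good A := by
  have hM : Module.Finite ℤ (Additive A) := Module.Finite.iff_addGroup_fg.2 inferInstance
  have hT : IsAddTorsionFree (Additive A) := by
    refine ⟨fun n hn x y hxy => ?_⟩
    have h1 : (x.toMul * y.toMul⁻¹) ^ n = 1 := by
      rw [mul_pow, inv_pow]
      have : x.toMul ^ n = y.toMul ^ n := hxy
      rw [this, mul_inv_cancel]
    have h2 := htf _ n (Nat.pos_of_ne_zero hn) h1
    exact (mul_inv_eq_one (G := A)).1 h2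
  obtain ⟨m, ⟨b⟩⟩ : ∃ m : ℕ, Nonempty (Module.Basis (Fin m) ℤ (Additive A)) :=
    ⟨_, ⟨Module.finBasis ℤ _⟩⟩
  let e : Multiplicative (Fin m → ℤ) ≃* A :=
    AddEquiv.toMultiplicativeLeft b.equivFun.symm.toAddEquiv
  exact (good_pi m).of_equiv e

theorem good_of_fg_nilpotent (G : Type) [Group G] [Group.IsNilpotent G] :
    Group.FG G → TF G → Good G := by
  refine Group.nilpotent_center_quotient_ind (P := fun G _ _ => Group.FG G → TF G → Good G) G ?_ ?_
  · intro G _ _ _ _
    exact good_of_subsingleton G
  · intro G _ _ ih hfg htf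
    have h1 : Good (G ⧸ Subgroup.center G) := ih inferInstance (tf_quot_center G htf)
    refine Good.ext (QuotientGroup.mk' (Subgroup.center G)) (QuotientGroup.mk'_surjective _) ?_ h1
    rw [QuotientGroup.ker_mk']
    have hfgc : Group.FG (Subgroup.center G) :=
      (Group.fg_iff_subgroup_fg _).2 (noeth_of_nilpotent G hfg _)
    let _ : CommGroup (Subgroup.center G) :=
      { (inferInstance : Group (Subgroup.center G)) with
        mul_comm := fun a b => Subtype.ext ((Subgroup.mem_center_iff.1 a.2 b).symm) }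
    refine good_of_comm (Subgroup.center G) hfgc ?_
    intro g n hn hgn
    exact Subtype.ext (htf g n hn (congrArg Subtype.val hgn))

/-- **Jennings/Malcev.** A finitely generated torsion-free nilpotent group has enough unipotent
representations over `ℚ`. -/
theorem exists_unipotent_rep (G : Type) [Group G] [Group.IsNilpotent G] (hfg : Group.FG G)
    (htf : ∀ g : G, ∀ n : ℕ, 0 < n → g ^ n = 1 → g = 1) (g : G) (hg : g ≠ 1) :
    ∃ (A : Type) (_ : Ring A) (_ : Algebra ℚ A) (ρ : G →* Aˣ) (k : ℕ),
      (∀ l : List G, l.length = k → (l.map (fun x => ((ρ x : Aˣ) : A) - 1)).prod = 0) ∧ ρ g ≠ 1 :=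
  (good_of_fg_nilpotent G hfg htf).enough g hg

end Pool.Agent.Helper34.UnipotentReps
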