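import Mathlib
import Pool.Agent.Helper34.UnipotentReps

/-!
# Isolated normal subgroups of torsion-free locally nilpotent groups (discrete case)

`exists_isolated_normal`: a torsion-free locally nilpotent nonabelian group has an isolated normal
subgroup, neither trivial nor whole.
-/

set_option autoImplicit false

open scoped commutatorElement

namespace Pool.Agent.Helper34.DiscreteCase

open Pool.Agent.Helper34.UnipotentReps

/-- The upper central series of a torsion-free nilpotent group consists of isolated subgroups. -/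
theorem upperCentralSeries_isolated (i : ℕ) : ∀ (G : Type) [Group G] [Group.IsNilpotent G],
    TF G → ∀ x : G, ∀ n : ℕ, 0 < n → x ^ n ∈ Subgroup.upperCentralSeries G i →
      x ∈ Subgroup.upperCentralSeries G i := by
  induction i with
  | zero =>
    intro G _ _ htf x n hn hx
    rw [Subgroup.upperCentralSeries_zero, Subgroup.mem_bot] at hx ⊢
    exact htf x n hn hx
  | succ i ih =>
    intro G _ _ htf x n hn hx
    rw [← Nat.succ_eq_add_one, ← Subgroup.comap_upperCentralSeries_quotient_center,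
      Subgroup.mem_comap] at hx ⊢
    rw [map_pow] at hx
    exact ih (G ⧸ Subgroup.center G) (tf_quot_center G htf) _ n hn hx

variable {G : Type} [Group G]

/-- `x` lies in `Δ` and in every subgroup containing `c`, normalised by `Δ` and isolated in `Δ`. -/
def InI (c : G) (Δ : Subgroup G) (x : G) : Prop :=
  x ∈ Δ ∧ ∀ K : Subgroup G, c ∈ K → (∀ g ∈ Δ, ∀ k ∈ K, k ∈ Δ → g * k * g⁻¹ ∈ K) →
    (∀ g ∈ Δ, ∀ n : ℕ, 0 < n → g ^ n ∈ K → g ∈ K) → x ∈ K

theorem InI.mono {c : G} {Δ Δ' : Subgroup G} (h : Δ ≤ Δ') {x : G} (hx : InI c Δ x) :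
    InI c Δ' x :=
  ⟨h hx.1, fun K hc h1 h2 => hx.2 K hc (fun g hg k hk hkΔ => h1 g (h hg) k hk (h hkΔ))
    (fun g hg => h2 g (h hg))⟩

open Classical in
/-- The isolated normal subgroup generated by `c`. -/
def isoClosure (c : G) : Subgroup G where
  carrier := {x | ∃ s : Finset G, InI c (Subgroup.closure (s : Set G)) x}
  one_mem' := ⟨∅, Subgroup.one_mem _, fun K _ _ _ => K.one_mem⟩
  mul_mem' := by
    rintro x y ⟨s, hs⟩ ⟨t, ht⟩
    have hs' := hs.mono (Subgroup.closure_mono (show (s : Set G) ⊆ ((s ∪ t : Finset G) : Set G) by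
      simp))
    have ht' := ht.mono (Subgroup.closure_mono (show (t : Set G) ⊆ ((s ∪ t : Finset G) : Set G) by
      simp))
    exact ⟨s ∪ t, Subgroup.mul_mem _ hs'.1 ht'.1,
      fun K hc h1 h2 => K.mul_mem (hs'.2 K hc h1 h2) (ht'.2 K hc h1 h2)⟩
  inv_mem' := by
    rintro x ⟨s, hs⟩
    exact ⟨s, Subgroup.inv_mem _ hs.1, fun K hc h1 h2 => K.inv_mem (hs.2 K hc h1 h2)⟩

theorem mem_isoClosure {c x : G} :
    x ∈ isoClosure c ↔ ∃ s : Finset G, InI c (Subgroup.closure (s : Set G)) x := Iff.rfl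

theorem InI.enlarge {c : G} {s : Finset G} {x : G} (h : InI c (Subgroup.closure (s : Set G)) x)
    (g : G) : ∃ t : Finset G, g ∈ Subgroup.closure (t : Set G) ∧
      Subgroup.closure (s : Set G) ≤ Subgroup.closure (t : Set G) ∧
      InI c (Subgroup.closure (t : Set G)) x := by
  classical
  have hle : Subgroup.closure (s : Set G) ≤ Subgroup.closure ((insert g s : Finset G) : Set G) :=
    Subgroup.closure_mono (by simp)
  exact ⟨insert g s, Subgroup.subset_closure (by simp), hle, h.mono hle⟩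

theorem self_mem_isoClosure (c : G) : c ∈ isoClosure c := by
  refine ⟨{c}, Subgroup.subset_closure (by simp), fun K hc _ _ => hc⟩

theorem isoClosure_normal (c : G) : (isoClosure c).Normal := by
  refine ⟨fun x hx g => ?_⟩
  obtain ⟨s, hs⟩ := hx
  obtain ⟨t, hg, hle, ht⟩ := hs.enlarge g
  exact ⟨t, Subgroup.mul_mem _ (Subgroup.mul_mem _ hg ht.1) (Subgroup.inv_mem _ hg),
    fun K hc h1 h2 => h1 g hg x (ht.2 K hc h1 h2) ht.1⟩

theorem isoClosure_isolated (c : G) (x : G) (n : ℕ) (hn : 0 < n) (hx : x ^ n ∈ isoClosure c) :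
    x ∈ isoClosure c := by
  obtain ⟨s, hs⟩ := hx
  obtain ⟨t, hg, hle, ht⟩ := hs.enlarge x
  exact ⟨t, hg, fun K hc h1 h2 => h2 x hg n hn (ht.2 K hc h1 h2)⟩

/-- **Discrete case.** -/
theorem exists_isolated_normal (G : Type) [Group G]
    (hln : ∀ s : Finset G, Group.IsNilpotent (Subgroup.closure (s : Set G)))
    (hab : ∃ a b : G, a * b ≠ b * a)
    (htf : ∀ g : G, ∀ n : ℕ, 0 < n → g ^ n = 1 → g = 1) :
    ∃ H : Subgroup G, H.Normal ∧ H ≠ ⊥ ∧ H ≠ ⊤ ∧
      ∀ g : G, ∀ n : ℕ, 0 < n → g ^ n ∈ H → g ∈ H := by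
  obtain ⟨a, b, hab⟩ := hab
  have hc : ⁅a, b⁆ ≠ 1 := fun h => hab (commutatorElement_eq_one_iff_mul_comm.1 h)
  refine ⟨isoClosure ⁅a, b⁆, isoClosure_normal _, ?_, ?_, isoClosure_isolated _⟩
  · intro h
    have := self_mem_isoClosure ⁅a, b⁆
    rw [h, Subgroup.mem_bot] at this
    exact hc this
  · intro htop
    have ha : a ∈ isoClosure ⁅a, b⁆ := by rw [htop]; trivial
    obtain ⟨s, hs⟩ := ha
    obtain ⟨t, hbt, -, ht⟩ := hs.enlarge b
    set Δ := Subgroup.closure (t : Set G) with hΔ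
    have hnil : Group.IsNilpotent Δ := hln t
    have htfΔ : TF Δ := fun g n hn hg => Subtype.ext (htf g n hn (congrArg Subtype.val hg))
    have key : ∀ i : ℕ, (⟨a, ht.1⟩ : Δ) ∈ Subgroup.upperCentralSeries Δ (i + 1) →
        (⟨a, ht.1⟩ : Δ) ∈ Subgroup.upperCentralSeries Δ i := by
      intro i hi
      have h1 := ht.2 ((Subgroup.upperCentralSeries Δ i).map Δ.subtype) ?_ ?_ ?_
      · obtain ⟨y, hy, hya⟩ := h1
        have : y = ⟨a, ht.1⟩ := Subtype.ext hya
        rwa [this] at hy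
      · refine ⟨⁅(⟨a, ht.1⟩ : Δ), ⟨b, hbt⟩⁆, ?_, rfl⟩
        exact (Subgroup.mem_upperCentralSeries_succ_iff.1 hi) ⟨b, hbt⟩
      · rintro g hg _ ⟨k, hk, rfl⟩ _
        exact ⟨⟨g, hg⟩ * k * ⟨g, hg⟩⁻¹,
          (inferInstance : (Subgroup.upperCentralSeries Δ i).Normal).conj_mem k hk _, rfl⟩
      · rintro g hg n hn ⟨k, hk, hkg⟩
        refine ⟨⟨g, hg⟩, ?_, rfl⟩
        apply upperCentralSeries_isolated i Δ htfΔ _ n hn
        have : k = (⟨g, hg⟩ : Δ) ^ n := Subtype.ext hkg
        rwa [← this]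
    obtain ⟨n, hn⟩ := hnil.nilpotent
    have hall : ∀ i, (⟨a, ht.1⟩ : Δ) ∈ Subgroup.upperCentralSeries Δ (n - i) := by
      intro i
      induction i with
      | zero => rw [Nat.sub_zero, hn]; trivial
      | succ i ih =>
        by_cases hi : i < n
        · apply key
          rwa [show n - (i + 1) + 1 = n - i by omega]
        · rwa [show n - (i + 1) = n - i by omega]
    have h0 := hall n
    rw [Nat.sub_self, Subgroup.upperCentralSeries_zero, Subgroup.mem_bot] at h0
    have ha1 : a = 1 := congrArg Subtype.val h0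
    apply hc
    rw [ha1, commutatorElement_one_left]

end Pool.Agent.Helper34.DiscreteCase
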