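import Mathlib
set_option autoImplicit false

/-!
# Power series algebra for MP_e853da_co

The three systems of recurrences determine the same series `f`.
-/

open PowerSeries Finset

namespace Pool.Agent.Helper13.Fish

structure SysA (f : ℚ⟦X⟧) (a b h : ℕ → ℚ⟦X⟧) : Prop where
  f0 : constantCoeff f = 1
  a0 : a 0 = 1
  a1 : a 1 = f
  asucc : ∀ k, a (k + 1) = a k + h (k + 1)
  b1 : b 1 = 0
  bsucc : ∀ k, f * b (k + 2) = X * ∑ p ∈ antidiagonal k, a (p.1 + 1) * h (p.2 + 2)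
  hk : ∀ k, 1 ≤ k → h k = b k + X * a k + X * h k + X * (b (k + 1) - b k)

structure SysB (f : ℚ⟦X⟧) (R L M : ℕ → ℚ⟦X⟧) : Prop where
  f0 : constantCoeff f = 1
  L0 : L 0 = 1
  M0 : M 0 = f
  Rsucc : ∀ k, R (k + 1) = 1 + X * ∑ p ∈ antidiagonal k, R (p.1 + 1) * L p.2
  Lsucc : ∀ k, f * L (k + 1) = f + X * ∑ p ∈ antidiagonal k, M (p.1 + 1) * L (p.2 + 1)
  Msucc : ∀ k, M k - X * M (k + 1) = (1 - X) * R (k + 1)

structure SysC (f : ℚ⟦X⟧) (l m : ℕ → ℚ⟦X⟧) : Prop where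
  f0 : constantCoeff f = 1
  m0 : m 0 = f
  l0 : l 0 = f - 1
  msucc : ∀ k, (1 - X) * (m (k + 1) - l (k + 1)) = m k - (1 - X) * l k
  lk : ∀ k, f * l k = X * ∑ p ∈ antidiagonal k,
    m (p.1 + 1) * (if p.2 = 0 then f else l p.2 - l (p.2 - 1))

/-! ### Divisibility by constants in `K⟦u⟧` -/

section general

variable {K : Type*} [CommRing K]

theorem C_dvd_iff (a : K) (φ : K⟦X⟧) : C a ∣ φ ↔ ∀ n, a ∣ coeff n φ := by
  constructor
  · rintro ⟨ψ, rfl⟩ n
    rw [coeff_C_mul]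
    exact Dvd.intro _ rfl
  · intro h
    choose g hg using h
    refine ⟨PowerSeries.mk g, ?_⟩
    ext n
    rw [coeff_C_mul, coeff_mk, hg]

theorem C_dvd_of_X_mul {a : K} {φ : K⟦X⟧} (h : C a ∣ X * φ) : C a ∣ φ := by
  rw [C_dvd_iff] at h ⊢
  intro n
  have := h (n + 1)
  rwa [coeff_succ_X_mul] at this

theorem dvd_of_unit_mul {R : Type*} [CommRing R] {a φ ψ : R} (hψ : IsUnit ψ) (h : a ∣ ψ * φ) :
    a ∣ φ := by
  obtain ⟨v, rfl⟩ := hψ
  exact (Units.dvd_mul_left).1 h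

end general

/-- A series in `ℚ⟦x⟧⟦u⟧` divisible by all powers of `x` is zero. -/
theorem eq_zero_of_forall_dvd (φ : ℚ⟦X⟧⟦X⟧) (h : ∀ n : ℕ, C ((X : ℚ⟦X⟧) ^ n) ∣ φ) : φ = 0 := by
  ext1 k
  ext1 j
  have h1 := (C_dvd_iff _ _).1 (h (j + 1)) k
  rw [X_pow_dvd_iff] at h1
  rw [h1 j (Nat.lt_succ_self j)]
  simp

theorem isUnit_of_cc {f : ℚ⟦X⟧} (hf : constantCoeff f = 1) : IsUnit f := by
  rw [PowerSeries.isUnit_iff_constantCoeff, hf]
  exact isUnit_one

theorem isUnit_of_cc' {φ : ℚ⟦X⟧⟦X⟧} (hf : IsUnit (constantCoeff φ)) : IsUnit φ :=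
  PowerSeries.isUnit_iff_constantCoeff.2 hf

/-- the small variable `x` in `ℚ⟦x⟧⟦u⟧` -/
noncomputable abbrev sx : ℚ⟦X⟧⟦X⟧ := C (X : ℚ⟦X⟧)

/-- the main variable `u` in `ℚ⟦x⟧⟦u⟧` -/
noncomputable abbrev uu : ℚ⟦X⟧⟦X⟧ := X

theorem unit_one_sub_x : IsUnit ((1 : ℚ⟦X⟧) - X) := isUnit_of_cc (by simp)

theorem unit_one_sub_u : IsUnit ((1 : ℚ⟦X⟧⟦X⟧) - uu) := isUnit_of_cc' (by simp)

theorem unit_one_sub_sx : IsUnit ((1 : ℚ⟦X⟧⟦X⟧) - sx) :=
  isUnit_of_cc' (by simpa using unit_one_sub_x)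

theorem unit_one_sub_sx_u : IsUnit ((1 : ℚ⟦X⟧⟦X⟧) - sx - uu) :=
  isUnit_of_cc' (by simpa using unit_one_sub_x)

/-! ### The central equation -/

/-- The equation satisfied by the series `G` of system C. -/
def Cen (f : ℚ⟦X⟧) (G : ℚ⟦X⟧⟦X⟧) : Prop :=
  C f * uu * (G - 1) * (1 - sx - uu) = sx * (1 - uu) * G * ((1 - sx) * G - C f * (1 - sx - uu))

theorem cen_mod {f : ℚ⟦X⟧} {G : ℚ⟦X⟧⟦X⟧} (hf : constantCoeff f = 1) (h : Cen f G) :
    sx ∣ G - 1 := by
  have h1 : sx ∣ X * (G - 1) := by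
    have h2 : sx ∣ (C f * (1 - sx - uu)) * (X * (G - 1)) :=
      ⟨(1 - uu) * G * ((1 - sx) * G - C f * (1 - sx - uu)), by
        unfold Cen at h; linear_combination h⟩
    exact dvd_of_unit_mul (((isUnit_of_cc hf).map C).mul unit_one_sub_sx_u) h2
  exact C_dvd_of_X_mul h1

theorem cen_unique {f f' : ℚ⟦X⟧} {G G' : ℚ⟦X⟧⟦X⟧} (hf : constantCoeff f = 1)
    (hf' : constantCoeff f' = 1) (h : Cen f G) (h' : Cen f' G')
    (hG : constantCoeff G = f) (hG' : constantCoeff G' = f') : f = f' := by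
  have key : ∀ n : ℕ, C ((X : ℚ⟦X⟧) ^ n) ∣ G - G' := by
    intro n
    induction n with
    | zero => simp
    | succ n ih =>
      -- `f ≡ f'` modulo `x ^ n`
      have hff : C ((X : ℚ⟦X⟧) ^ n) ∣ C f - C f' := by
        have h0 := (C_dvd_iff _ _).1 ih 0
        rw [coeff_zero_eq_constantCoeff_apply, map_sub, hG, hG'] at h0
        rw [← map_sub]
        exact map_dvd C h0
      obtain ⟨D, hD⟩ := ih
      obtain ⟨e, he⟩ := hff
      obtain ⟨q, hq⟩ := cen_mod hf' h'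
      have hX : (C ((X : ℚ⟦X⟧) ^ (n + 1)) : ℚ⟦X⟧⟦X⟧) = C ((X : ℚ⟦X⟧) ^ n) * sx := by
        rw [pow_succ, map_mul]
      rw [hX]
      have h3 : C ((X : ℚ⟦X⟧) ^ n) * sx ∣ (1 - sx - uu) * (X * (C f * (G - G'))) := by
        unfold Cen at h h'
        refine ⟨(1 - uu) * (D * ((1 - sx) * G - C f * (1 - sx - uu)) + G' * ((1 - sx) * D -
          e * (1 - sx - uu))) - uu * (1 - sx - uu) * e * q, ?_⟩
        linear_combination h - h' - (1 - sx - uu) * uu * (G' - 1) * he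
          - (1 - sx - uu) * uu * C ((X : ℚ⟦X⟧) ^ n) * e * hq
          + sx * (1 - uu) * (((1 - sx) * G - C f * (1 - sx - uu)) * hD
            + G' * ((1 - sx) * hD - (1 - sx - uu) * he))
      have h4 := dvd_of_unit_mul unit_one_sub_sx_u h3
      rw [← hX] at h4 ⊢
      exact dvd_of_unit_mul ((isUnit_of_cc hf).map C) (C_dvd_of_X_mul h4)
  have hGG : G = G' := by
    have := eq_zero_of_forall_dvd _ key
    exact sub_eq_zero.1 this
  rw [← hG, ← hG', hGG]

/-! ### System C -/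

section sysC

variable {f : ℚ⟦X⟧} {l m : ℕ → ℚ⟦X⟧}

/-- the series `l(u)` -/
noncomputable def lS (l : ℕ → ℚ⟦X⟧) : ℚ⟦X⟧⟦X⟧ := PowerSeries.mk l

/-- the series `m'(u) = (m(u) - f)/u` -/
noncomputable def mS (m : ℕ → ℚ⟦X⟧) : ℚ⟦X⟧⟦X⟧ := PowerSeries.mk (fun k => m (k + 1))

/-- the series `G(u) = 1 + (1 - u) l(u)` -/
noncomputable def GS (l : ℕ → ℚ⟦X⟧) : ℚ⟦X⟧⟦X⟧ := 1 + (1 - uu) * lS l

theorem coeff_GS (hC : SysC f l m) (k : ℕ) :
    coeff k (GS l) = if k = 0 then f else l k - l (k - 1) := by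
  unfold GS lS
  cases k with
  | zero =>
    rw [sub_mul, one_mul]
    simp [hC.l0]
  | succ k =>
    rw [sub_mul, one_mul, map_add, map_sub, coeff_succ_X_mul]
    simp [coeff_one]

theorem cc_GS (hC : SysC f l m) : constantCoeff (GS l) = f := by
  rw [← coeff_zero_eq_constantCoeff_apply, coeff_GS hC, if_pos rfl]

theorem lk_series (hC : SysC f l m) : C f * lS l = sx * (mS m * GS l) := by
  ext1 k
  rw [coeff_C_mul, coeff_C_mul, coeff_mul]
  simp only [coeff_GS hC]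
  unfold lS mS
  simp only [coeff_mk]
  exact hC.lk k

theorem m_series (hC : SysC f l m) :
    (1 - sx - uu) * (C f + uu * mS m) = (1 - sx) * GS l := by
  have h1 : (PowerSeries.mk m : ℚ⟦X⟧⟦X⟧) = C f + uu * mS m := by
    ext1 k
    cases k with
    | zero => simp [hC.m0]
    | succ k =>
      rw [map_add, coeff_succ_X_mul]
      simp [mS]
  have h2 : (1 - sx) * (mS m - PowerSeries.mk (fun k => l (k + 1))) =
      PowerSeries.mk m - (1 - sx) * lS l := by
    ext1 k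
    have : (1 - sx : ℚ⟦X⟧⟦X⟧) = C (1 - X) := by simp
    rw [this, coeff_C_mul, map_sub, map_sub, coeff_C_mul]
    simp only [mS, lS, coeff_mk]
    exact hC.msucc k
  have h3 : lS l = C (f - 1) + uu * PowerSeries.mk (fun k => l (k + 1)) := by
    ext1 k
    cases k with
    | zero => simp [lS, hC.l0]
    | succ k =>
      rw [map_add, coeff_succ_X_mul]
      simp [lS]
  rw [h1] at h2
  rw [map_sub, map_one] at h3
  unfold GS
  linear_combination uu * h2 - (1 - sx) * h3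

theorem cen_of_sysC (hC : SysC f l m) : Cen f (GS l) := by
  have h1 := lk_series hC
  have h2 := m_series hC
  unfold Cen
  have h3 : GS l - 1 = (1 - uu) * lS l := by unfold GS; ring
  linear_combination (uu * (1 - uu) * (1 - sx - uu)) * h1 + (sx * (1 - uu) * GS l) * h2
    + C f * uu * (1 - sx - uu) * h3

end sysC

/-! ### System A -/

section sysA

variable {f : ℚ⟦X⟧} {a b h : ℕ → ℚ⟦X⟧}

/-- the series `y(u)`, `y_0 = f`, `y_k = h_{k+1}` -/
noncomputable def yS (f : ℚ⟦X⟧) (h : ℕ → ℚ⟦X⟧) : ℚ⟦X⟧⟦X⟧ :=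
  C f + uu * PowerSeries.mk (fun k => h (k + 2))

theorem a_series (hA : SysA f a b h) :
    (1 - uu) * PowerSeries.mk (fun k => a (k + 1)) = yS f h := by
  unfold yS
  rw [sub_mul, one_mul]
  ext1 k
  cases k with
  | zero => simp [hA.a1]
  | succ k =>
    rw [map_sub, map_add, coeff_succ_X_mul, coeff_succ_X_mul]
    simp only [coeff_mk]
    rw [hA.asucc (k + 1)]
    simp

theorem b_series (hA : SysA f a b h) :
    C f * PowerSeries.mk (fun k => b (k + 1)) =
      sx * (PowerSeries.mk (fun k => a (k + 1)) * (yS f h - C f)) := by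
  have h1 : (PowerSeries.mk (fun k => b (k + 1)) : ℚ⟦X⟧⟦X⟧) =
      uu * PowerSeries.mk (fun k => b (k + 2)) := by
    ext1 k
    cases k with
    | zero => simp [hA.b1]
    | succ k =>
      rw [coeff_succ_X_mul]
      simp
  have h2 : C f * PowerSeries.mk (fun k => b (k + 2)) =
      sx * (PowerSeries.mk (fun k => a (k + 1)) * PowerSeries.mk (fun k => h (k + 2))) := by
    ext1 k
    rw [coeff_C_mul, coeff_C_mul, coeff_mul]
    simp only [coeff_mk]
    exact hA.bsucc k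
  rw [h1]
  unfold yS
  linear_combination uu * h2

theorem h_series (hA : SysA f a b h) :
    (1 - sx) * (uu * (yS f h - 1)) = uu * PowerSeries.mk (fun k => b (k + 1))
      + sx * (uu * PowerSeries.mk (fun k => a (k + 1)))
      + sx * (1 - uu) * PowerSeries.mk (fun k => b (k + 1)) := by
  have h1 : (PowerSeries.mk (fun k => b (k + 1)) : ℚ⟦X⟧⟦X⟧) =
      uu * PowerSeries.mk (fun k => b (k + 2)) := by
    ext1 k
    cases k with
    | zero => simp [hA.b1]
    | succ k =>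
      rw [coeff_succ_X_mul]
      simp
  have h0 : yS f h - 1 = PowerSeries.mk (fun k => h (k + 1)) := by
    unfold yS
    ext1 k
    cases k with
    | zero =>
      have := hA.asucc 0
      rw [hA.a0, hA.a1] at this
      simp [this]
    | succ k =>
      rw [map_sub, map_add, coeff_succ_X_mul]
      simp [coeff_one]
  have h2 : (PowerSeries.mk (fun k => h (k + 1)) : ℚ⟦X⟧⟦X⟧) =
      PowerSeries.mk (fun k => b (k + 1)) + sx * PowerSeries.mk (fun k => a (k + 1))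
      + sx * PowerSeries.mk (fun k => h (k + 1)) +
      sx * (PowerSeries.mk (fun k => b (k + 2)) - PowerSeries.mk (fun k => b (k + 1))) := by
    ext1 k
    simp only [map_add, coeff_C_mul, map_sub, coeff_mk]
    exact hA.hk (k + 1) (by omega)
  rw [h0]
  linear_combination uu * h2 - sx * h1

theorem y_eq (hA : SysA f a b h) :
    C f * ((1 - sx) * uu) * (yS f h - 1) * (1 - uu) =
      ((1 - sx) * uu + sx) * (sx * (yS f h * (yS f h - C f))) + sx * C f * uu * yS f h := by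
  have h1 := a_series hA
  have h2 := b_series hA
  have h3 := h_series hA
  generalize (PowerSeries.mk (fun k => a (k + 1)) : ℚ⟦X⟧⟦X⟧) = A at *
  generalize (PowerSeries.mk (fun k => b (k + 1)) : ℚ⟦X⟧⟦X⟧) = B at *
  generalize yS f h = Y at *
  linear_combination C f * (1 - uu) * h3 + ((1 - sx) * uu + sx) * (1 - uu) * h2
    + (((1 - sx) * uu + sx) * sx * (Y - C f) + sx * uu * C f) * h1

theorem exists_cen_of_sysA (hA : SysA f a b h) : ∃ G, Cen f G ∧ constantCoeff G = f := by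
  obtain ⟨v, hv⟩ := (unit_one_sub_sx.mul unit_one_sub_u).exists_right_inv
  set W : ℚ⟦X⟧⟦X⟧ := sx * uu * v with hW
  have hW0 : constantCoeff W = 0 := by simp [hW]
  have hs : HasSubst W := HasSubst.of_constantCoeff_zero' hW0
  have hE := congrArg (PowerSeries.substAlgHom hs) (y_eq hA)
  have hC : ∀ c : ℚ⟦X⟧, PowerSeries.substAlgHom hs (C c) = C c := by
    intro c
    rw [coe_substAlgHom, subst_C]
    rfl
  have hX : PowerSeries.substAlgHom hs (X : ℚ⟦X⟧⟦X⟧) = W := PowerSeries.substAlgHom_X hs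
  simp only [map_mul, map_add, map_sub, map_one, hC, hX] at hE
  set G : ℚ⟦X⟧⟦X⟧ := PowerSeries.substAlgHom hs (yS f h) with hG
  refine ⟨G, ?_, ?_⟩
  · have hW1 : (1 - sx) * (1 - uu) * W = sx * uu := by
      rw [hW]
      linear_combination sx * uu * hv
    have hsx : sx ≠ 0 := by
      intro h0
      have := congrArg (constantCoeff (R := ℚ⟦X⟧)) h0
      simp at this
    unfold Cen
    apply mul_left_cancel₀ hsx
    linear_combination (1 - sx) * (1 - uu) ^ 2 * hE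
      + (-(C f * (G - 1) * (1 - sx) * (1 - uu)) * (1 - W) + C f * sx * uu * (G - 1)
        + (1 - uu) * (1 - sx) * sx * G * (G - C f) + (1 - uu) * sx * C f * G) * hW1
  · rw [hG]
    unfold yS
    rw [map_add, map_mul, hC, hX, map_add, map_mul, hW0]
    simp

theorem sysA_eq_sysC (f f' : ℚ⟦X⟧) (a b h l m : ℕ → ℚ⟦X⟧) (hA : SysA f a b h)
    (hC : SysC f' l m) : f = f' := by
  obtain ⟨G, h1, h2⟩ := exists_cen_of_sysA hA
  exact cen_unique hA.f0 hC.f0 h1 (cen_of_sysC hC) h2 (cc_GS hC)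

end sysA

/-! ### System B -/

section sysB

variable {f : ℚ⟦X⟧} {R L M : ℕ → ℚ⟦X⟧}

/-- The equations of system B at `w`: `ρ = (R - 1)/w`, `λ = (L - 1)/w`, `μ = (M - f)/w`. -/
structure Ben (w : ℚ⟦X⟧⟦X⟧) (f : ℚ⟦X⟧) (ρ lam μ : ℚ⟦X⟧⟦X⟧) : Prop where
  e1 : (1 - w) * (1 - sx * (1 + w * lam)) * ρ = 1
  e2 : C f * lam * (1 - w) = C f + sx * (1 - w) * (μ * lam)
  e3 : C f + w * μ - sx * μ = (1 - sx) * ρ

theorem ben_of_sysB (hB : SysB f R L M) :
    Ben uu f (PowerSeries.mk (fun k => R (k + 1))) (PowerSeries.mk (fun k => L (k + 1)))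
      (PowerSeries.mk (fun k => M (k + 1))) := by
  have hL : (PowerSeries.mk L : ℚ⟦X⟧⟦X⟧) = 1 + uu * PowerSeries.mk (fun k => L (k + 1)) := by
    ext1 k
    cases k with
    | zero => simp [hB.L0]
    | succ k =>
      rw [map_add, coeff_succ_X_mul]
      simp [coeff_one]
  have hM : (PowerSeries.mk M : ℚ⟦X⟧⟦X⟧) = C f + uu * PowerSeries.mk (fun k => M (k + 1)) := by
    ext1 k
    cases k with
    | zero => simp [hB.M0]
    | succ k =>
      rw [map_add, coeff_succ_X_mul]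
      simp
  have hone : ∀ c : ℚ⟦X⟧, (1 - uu) * PowerSeries.mk (fun _ : ℕ => c) = C c := by
    intro c
    rw [sub_mul, one_mul]
    ext1 k
    cases k with
    | zero => simp
    | succ k =>
      rw [map_sub, coeff_succ_X_mul]
      simp
  have h1 : (PowerSeries.mk (fun k => R (k + 1)) : ℚ⟦X⟧⟦X⟧) =
      PowerSeries.mk (fun _ : ℕ => (1 : ℚ⟦X⟧))
        + sx * (PowerSeries.mk (fun k => R (k + 1)) * PowerSeries.mk L) := by
    ext1 k
    rw [map_add, coeff_C_mul, coeff_mul]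
    simp only [coeff_mk]
    exact hB.Rsucc k
  have h2 : C f * PowerSeries.mk (fun k => L (k + 1)) =
      PowerSeries.mk (fun _ : ℕ => f)
        + sx * (PowerSeries.mk (fun k => M (k + 1)) * PowerSeries.mk (fun k => L (k + 1))) := by
    ext1 k
    rw [map_add, coeff_C_mul, coeff_C_mul, coeff_mul]
    simp only [coeff_mk]
    exact hB.Lsucc k
  have h3 : PowerSeries.mk M - sx * PowerSeries.mk (fun k => M (k + 1)) =
      (1 - sx) * PowerSeries.mk (fun k => R (k + 1)) := by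
    ext1 k
    have : (1 - sx : ℚ⟦X⟧⟦X⟧) = C (1 - X) := by simp
    rw [this, coeff_C_mul, map_sub, coeff_C_mul]
    simp only [coeff_mk]
    exact hB.Msucc k
  have o1 := hone 1
  have of := hone f
  rw [map_one] at o1
  rw [hL] at h1
  rw [hM] at h3
  refine ⟨?_, ?_, ?_⟩
  · linear_combination (1 - uu) * h1 + o1
  · linear_combination (1 - uu) * h2 + of
  · linear_combination h3

theorem ben_subst {w : ℚ⟦X⟧⟦X⟧} (hw : constantCoeff w = 0) {ρ lam μ : ℚ⟦X⟧⟦X⟧}
    (h : Ben uu f ρ lam μ) : ∃ ρ' lam' μ', Ben w f ρ' lam' μ' := by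
  have hs : HasSubst w := HasSubst.of_constantCoeff_zero' hw
  have hC : ∀ c : ℚ⟦X⟧, PowerSeries.substAlgHom hs (C c) = C c := by
    intro c
    rw [coe_substAlgHom, subst_C]
    rfl
  have hX : PowerSeries.substAlgHom hs (X : ℚ⟦X⟧⟦X⟧) = w := PowerSeries.substAlgHom_X hs
  have e1 := congrArg (PowerSeries.substAlgHom hs) h.e1
  have e2 := congrArg (PowerSeries.substAlgHom hs) h.e2
  have e3 := congrArg (PowerSeries.substAlgHom hs) h.e3
  simp only [map_mul, map_add, map_sub, map_one, hC, hX] at e1 e2 e3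
  exact ⟨_, _, _, e1, e2, e3⟩

theorem ben_unique {f f' : ℚ⟦X⟧} {v ρ lam μ ρ' lam' μ' : ℚ⟦X⟧⟦X⟧}
    (hv : IsUnit v) (hf : constantCoeff f = 1)
    (h : Ben (uu * v) f ρ lam μ) (h' : Ben (uu * v) f' ρ' lam' μ') : f = f' := by
  set w : ℚ⟦X⟧⟦X⟧ := uu * v with hw
  have hw0 : constantCoeff w = 0 := by simp [hw]
  have uw : IsUnit (1 - w) := isUnit_of_cc' (by rw [map_sub, hw0]; simp)
  have key : ∀ n : ℕ, C ((X : ℚ⟦X⟧) ^ n) ∣ lam - lam' ∧ C ((X : ℚ⟦X⟧) ^ n) ∣ μ - μ' ∧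
      C ((X : ℚ⟦X⟧) ^ n) ∣ C f - C f' := by
    intro n
    induction n with
    | zero => simp
    | succ n ih =>
      obtain ⟨⟨a, ha⟩, ⟨b, hb⟩, ⟨c, hc⟩⟩ := ih
      have hX : (C ((X : ℚ⟦X⟧) ^ (n + 1)) : ℚ⟦X⟧⟦X⟧) = C ((X : ℚ⟦X⟧) ^ n) * sx := by
        rw [pow_succ, map_mul]
      rw [hX]
      set t : ℚ⟦X⟧⟦X⟧ := C ((X : ℚ⟦X⟧) ^ n) with ht
      have r1 : ρ - ρ' = t * sx * ((1 - w) * w * a * ρ * ρ') := by
        have i1 := h.e1
        have i2 := h'.e1
        linear_combination ρ' * i1 - ρ * i2 + sx * (1 - w) * w * ρ * ρ' * ha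
      have r3 : t * sx ∣ (C f - C f') + w * (μ - μ') := by
        refine ⟨b + (1 - sx) * ((1 - w) * w * a * ρ * ρ'), ?_⟩
        linear_combination h.e3 - h'.e3 + sx * hb + (1 - sx) * r1
      have rf : t * sx ∣ C f - C f' := by
        rw [← hX] at r3 ⊢
        have h0 := (C_dvd_iff _ _).1 r3 0
        rw [coeff_zero_eq_constantCoeff_apply, map_add, map_mul, hw0, zero_mul, add_zero,
          map_sub, constantCoeff_C, constantCoeff_C] at h0
        rw [← map_sub]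
        exact map_dvd C h0
      have rm : t * sx ∣ μ - μ' := by
        have h5 : t * sx ∣ w * (μ - μ') := (dvd_add_right rf).1 r3
        rw [hw, mul_comm X v, mul_assoc] at h5
        have h6 := dvd_of_unit_mul hv h5
        rw [← hX] at h6 ⊢
        exact C_dvd_of_X_mul h6
      obtain ⟨c', hc'⟩ := rf
      obtain ⟨b', hb'⟩ := rm
      refine ⟨?_, ⟨b', hb'⟩, ⟨c', hc'⟩⟩
      have h7 : t * sx ∣ ((1 - w) * C f) * (lam - lam') := by
        refine ⟨c' + (1 - w) * (b * lam + μ' * a) - c' * lam' * (1 - w), ?_⟩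
        linear_combination h.e2 - h'.e2 + (1 - (1 - w) * lam') * hc'
          + sx * (1 - w) * (lam * hb + μ' * ha)
      exact dvd_of_unit_mul (uw.mul ((isUnit_of_cc hf).map C)) h7
  have h8 : (C f - C f' : ℚ⟦X⟧⟦X⟧) = 0 := eq_zero_of_forall_dvd _ (fun n => (key n).2.2)
  have h9 := sub_eq_zero.1 h8
  exact C_injective h9

theorem ben_of_sysC {l m : ℕ → ℚ⟦X⟧} (hC : SysC f l m) :
    ∃ v ρ lam μ, IsUnit v ∧ Ben (uu * v) f ρ lam μ := by
  have hG : IsUnit (GS l) := isUnit_of_cc' (by rw [cc_GS hC]; exact isUnit_of_cc hC.f0)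
  obtain ⟨v, hv⟩ := hG.exists_right_inv
  have hvu : IsUnit v := IsUnit.of_mul_eq_one _ (by rw [mul_comm]; exact hv)
  obtain ⟨p, hp⟩ := unit_one_sub_u.exists_right_inv
  obtain ⟨q, hq⟩ := unit_one_sub_sx_u.exists_right_inv
  have hw0 : constantCoeff (uu * v) = 0 := by simp
  have uw : IsUnit (1 - uu * v) := isUnit_of_cc' (by rw [map_sub, hw0]; simp)
  obtain ⟨s, hs⟩ := uw.exists_right_inv
  have h1 := lk_series hC
  have h2 := m_series hC
  have h3 : GS l = 1 + (1 - uu) * lS l := rfl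
  refine ⟨v, (1 - uu) * q * s, GS l * p, (1 - uu) * s * mS m, hvu, ?_, ?_, ?_⟩
  · have hA : 1 + uu * v * (GS l * p) = p := by
      linear_combination uu * p * hv - hp
    have hB : (1 - sx * p) * (1 - uu) = 1 - sx - uu := by
      linear_combination (-sx) * hp
    rw [hA]
    linear_combination (1 - uu * v) * q * s * hB + (1 - uu * v) * s * hq + hs
  · have hA : GS l * (1 - uu * v) = (1 - uu) * (1 + lS l) := by
      linear_combination (-uu) * hv + h3
    linear_combination C f * p * hA + C f * (1 + lS l) * hp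
      - sx * mS m * GS l * (1 - uu) * p * hs - sx * mS m * GS l * hp + h1
  · have hK1 : (1 - sx) * q = (C f + uu * mS m) * v := by
      linear_combination (-(v * q)) * h2 + (C f + uu * mS m) * v * hq - (1 - sx) * q * hv
    have hK2 : sx * (1 - uu) * mS m = C f * (1 - v) := by
      linear_combination (-(v * (1 - uu))) * h1 - (C f * v) * h3
        + (C f - sx * (1 - uu) * mS m) * hv
    have hK : C f * (1 - uu * v) + (uu * v - sx) * (1 - uu) * mS m
        - (1 - sx) * (1 - uu) * q = 0 := by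
      linear_combination (-(1 - uu)) * hK1 - hK2
    linear_combination s * hK - C f * hs

theorem sysB_eq_sysC (f f' : ℚ⟦X⟧) (R L M l m : ℕ → ℚ⟦X⟧) (hB : SysB f R L M)
    (hC : SysC f' l m) : f = f' := by
  obtain ⟨v, ρ, lam, μ, hv, h⟩ := ben_of_sysC hC
  obtain ⟨ρ', lam', μ', h'⟩ := ben_subst (w := uu * v) (by simp) (ben_of_sysB hB)
  exact ben_unique hv hB.f0 h' h

end sysB

end Pool.Agent.Helper13.Fish
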