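import Pool.Agent.Helper13.Fish.Cnt
set_option autoImplicit false

/-! Permutations and time stamped strings. -/

namespace Pool.Agent.Helper13.Fish

namespace Perm34

/-! ### The flags -/

/-- Generic flags. -/
def flG (r : ℕ → ℕ → Bool) : ℕ → TStr → Str
  | _, [] => []
  | a, none :: L => none :: flG r a L
  | a, some v :: L => some (!(r a v)) :: flG r v L

theorem flI_eq (a : ℕ) (L : TStr) : flI a L = flG (fun a v => decide (a ≤ v)) a L := by
  induction L generalizing a with
  | nil => rfl
  | cons c L ih =>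
    cases c with
    | none => simp [flI, flG, ih]
    | some v =>
      simp only [flI, flG, ih, List.cons.injEq, Option.some.injEq, and_true]
      by_cases h : a ≤ v
      · simp [h]
      · simp [h, not_le.1 h]

theorem flD_eq (a : ℕ) (L : TStr) : flD a L = flG (fun a v => decide (v < a)) a L := by
  induction L generalizing a with
  | nil => rfl
  | cons c L ih =>
    cases c with
    | none => simp [flD, flG, ih]
    | some v =>
      simp only [flD, flG, ih, List.cons.injEq, Option.some.injEq, and_true]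
      by_cases h : a ≤ v
      · simp [h]
      · simp [h, not_le.1 h]

theorem ok2_flG (r : ℕ → ℕ → Bool) (a : ℕ) (L : TStr) :
    ok2 (flG r a L) = true ↔ List.IsChain (fun x y => r x y = true) (a :: L.filterMap id) := by
  induction L generalizing a with
  | nil => simp [flG, ok2]
  | cons c L ih =>
    cases c with
    | none => simpa [flG, ok2] using ih a
    | some v => simp [flG, ok2, ih v]

theorem ok1_flG (r : ℕ → ℕ → Bool) (a : ℕ) (L : TStr) :
    ok1 (flG r a L) = true ↔ List.IsChain (fun x y => r x y = true) (L.filterMap id) := by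
  induction L generalizing a with
  | nil => simp [flG, ok1]
  | cons c L ih =>
    cases c with
    | none => simpa [flG, ok1] using ih a
    | some v => simp [flG, ok1, ok2_flG]

theorem pairwise_filterMap_iff (R : ℕ → ℕ → Prop) (L : TStr) :
    List.Pairwise R (L.filterMap id) ↔ ∀ (j k v w : ℕ), j < k → L[j]? = some (some v) →
      L[k]? = some (some w) → R v w := by
  induction L with
  | nil => simp
  | cons c L ih =>
    have hshift : (∀ (j k v w : ℕ), j < k → L[j]? = some (some v) → L[k]? = some (some w) → R v w) ↔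
        ∀ (j k v w : ℕ), j < k → (c :: L)[j + 1]? = some (some v) → (c :: L)[k + 1]? = some (some w) →
          R v w := by simp
    cases c with
    | none =>
      rw [List.filterMap_cons_none rfl, ih, hshift]
      constructor
      · intro h j k v w hjk hj hk
        rcases j with _ | j
        · simp at hj
        · rcases k with _ | k
          · omega
          · exact h j k v w (by omega) hj hk
      · intro h j k v w hjk hj hk
        exact h (j + 1) (k + 1) v w (by omega) hj hk
    | some u =>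
      rw [List.filterMap_cons_some (f := id) (a := some u) (b := u) rfl, List.pairwise_cons, ih, hshift]
      constructor
      · rintro ⟨h0, h⟩ j k v w hjk hj hk
        rcases k with _ | k
        · omega
        · rcases j with _ | j
          · simp only [List.getElem?_cons_zero, Option.some.injEq] at hj
            subst hj
            apply h0
            rw [List.mem_filterMap]
            refine ⟨some w, ?_, rfl⟩
            rw [List.getElem?_cons_succ] at hk
            exact List.mem_of_getElem? hk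
          · exact h j k v w (by omega) hj hk
      · intro h
        refine ⟨?_, fun j k v w hjk hj hk => h (j + 1) (k + 1) v w (by omega) hj hk⟩
        intro w hw
        rw [List.mem_filterMap] at hw
        obtain ⟨a, ha, ha'⟩ := hw
        simp only [id] at ha'
        subst ha'
        obtain ⟨k, hk⟩ := List.getElem?_of_mem ha
        exact h 0 (k + 1) u w (by omega) (by simp) (by simpa using hk)

theorem ok0_flG (r : ℕ → ℕ → Bool) (htr : ∀ x y z, r x y = true → r y z = true → r x z = true)
    (a : ℕ) (L : TStr) :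
    ok0 (flG r a L) = true ↔ ∀ (i j k v w : ℕ), i < j → j < k → L[i]? = some none →
      L[j]? = some (some v) → L[k]? = some (some w) → r v w = true := by
  have : Trans (fun x y => r x y = true) (fun x y => r x y = true) (fun x y => r x y = true) :=
    ⟨fun {a b c} => htr a b c⟩
  induction L generalizing a with
  | nil => simp [flG, ok0]
  | cons c L ih =>
    cases c with
    | none =>
      simp only [flG, ok0]
      rw [ok1_flG, List.isChain_iff_pairwise, pairwise_filterMap_iff]
      constructor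
      · intro h i j k v w hij hjk hi hj hk
        rcases j with _ | j
        · omega
        rcases k with _ | k
        · omega
        simp only [List.getElem?_cons_succ] at hj hk
        exact h j k v w (by omega) hj hk
      · intro h j k v w hjk hj hk
        exact h 0 (j + 1) (k + 1) v w (by omega) (by omega) (by simp) (by simpa using hj)
          (by simpa using hk)
    | some u =>
      simp only [flG, ok0]
      refine (ih u).trans ?_
      constructor
      · intro h i j k v w hij hjk hi hj hk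
        rcases i with _ | i
        · simp at hi
        rcases j with _ | j
        · omega
        rcases k with _ | k
        · omega
        simp only [List.getElem?_cons_succ] at hi hj hk
        exact h i j k v w (by omega) (by omega) hi hj hk
      · intro h i j k v w hij hjk hi hj hk
        exact h (i + 1) (j + 1) (k + 1) v w (by omega) (by omega) (by simpa using hi)
          (by simpa using hj) (by simpa using hk)

/-! ### The sum over empty cells -/

open Classical in
theorem ssum_eq_sum {β M : Type*} [AddCommMonoid M] (L : List (Option β))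
    (φ : List (Option β) → List (Option β) → M) :
    ssum L φ = ∑ p ∈ Finset.range L.length,
      if L[p]? = some none then φ (L.take p) (L.drop (p + 1)) else 0 := by
  induction L generalizing φ with
  | nil => simp [ssum]
  | cons c L ih =>
    rw [List.length_cons, Finset.sum_range_succ']
    cases c with
    | none =>
      simp only [ssum, ih]
      rw [add_comm]
      congr 1
    | some b =>
      simp only [ssum, ih]
      simp

/-! ### Permutations as fillings -/

/-- The string at time `t`. -/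
def cfg {n : ℕ} (M : Equiv.Perm (Fin n)) (t : ℕ) : TStr :=
  List.ofFn fun i : Fin n => if (M i : ℕ) < t then some (M i : ℕ) else none

@[simp] theorem length_cfg {n : ℕ} (M : Equiv.Perm (Fin n)) (t : ℕ) : (cfg M t).length = n := by
  simp [cfg]

theorem getElem?_cfg {n : ℕ} (M : Equiv.Perm (Fin n)) (t : ℕ) (i : Fin n) :
    (cfg M t)[(i : ℕ)]? = some (if (M i : ℕ) < t then some (M i : ℕ) else none) := by
  simp [cfg]

theorem getElem?_cfg_none {n : ℕ} (M : Equiv.Perm (Fin n)) (t : ℕ) (i : ℕ) (hi : n ≤ i) :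
    (cfg M t)[i]? = none := by
  simp [hi]

/-- The condition on the step that fills `p`. -/
def Q (P : ℕ → TStr → TStr → Bool) {n : ℕ} (M : Equiv.Perm (Fin n)) (p : Fin n) : Prop :=
  P (M p) ((cfg M (M p)).take p) ((cfg M (M p)).drop (p + 1)) = true

theorem cfg_succ_iff {n : ℕ} (M : Equiv.Perm (Fin n)) (t : ℕ) (p : Fin n) (L : TStr)
    (hn : L.length = n) (hL : L[(p : ℕ)]? = some none) :
    (cfg M t = L ∧ (M p : ℕ) = t) ↔
      cfg M (t + 1) = L.take p ++ some t :: L.drop (p + 1) := by
  have hset : L.take p ++ some t :: L.drop (p + 1) = L.set p (some t) := by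
    rw [List.set_eq_take_append_cons_drop, if_pos (by rw [hn]; exact p.2)]
  rw [hset]
  have hpL : (p : ℕ) < L.length := by rw [hn]; exact p.2
  constructor
  · rintro ⟨rfl, hp⟩
    apply List.ext_getElem?
    intro i
    rw [List.getElem?_set]
    by_cases hi : i < n
    · have h1 := getElem?_cfg M (t + 1) ⟨i, hi⟩
      have h2 := getElem?_cfg M t ⟨i, hi⟩
      simp only at h1 h2
      rw [h1]
      by_cases hpi : (p : ℕ) = i
      · subst hpi
        simp [hp]
      · rw [if_neg hpi, h2]
        have hne : (M ⟨i, hi⟩ : ℕ) ≠ t := by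
          rw [← hp]
          intro h
          apply hpi
          have := M.injective (Fin.ext h)
          rw [← this]
        congr 1
        by_cases hlt : (M ⟨i, hi⟩ : ℕ) < t
        · rw [if_pos hlt, if_pos (by omega)]
        · rw [if_neg hlt, if_neg (by omega)]
    · rw [getElem?_cfg_none M _ i (by omega), getElem?_cfg_none M _ i (by omega)]
      have : (p : ℕ) ≠ i := by have := p.2; omega
      rw [if_neg this]
  · intro h
    have hp : (M p : ℕ) = t := by
      have h1 := getElem?_cfg M (t + 1) p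
      rw [h, List.getElem?_set, if_pos rfl, if_pos hpL] at h1
      simp only [Option.some.injEq] at h1
      by_cases hlt : (M p : ℕ) < t + 1
      · rw [if_pos hlt] at h1
        simpa using h1.symm
      · rw [if_neg hlt] at h1
        simp at h1
    refine ⟨?_, hp⟩
    apply List.ext_getElem?
    intro i
    by_cases hi : i < n
    · have h1 := getElem?_cfg M (t + 1) ⟨i, hi⟩
      have h2 := getElem?_cfg M t ⟨i, hi⟩
      simp only at h1 h2
      rw [h, List.getElem?_set] at h1
      rw [h2]
      by_cases hpi : (p : ℕ) = i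
      · subst hpi
        rw [hL]
        simp [hp]
      · rw [if_neg hpi] at h1
        rw [h1]
        have hne : (M ⟨i, hi⟩ : ℕ) ≠ t := by
          rw [← hp]
          intro h
          apply hpi
          have := M.injective (Fin.ext h)
          rw [← this]
        congr 1
        by_cases hlt : (M ⟨i, hi⟩ : ℕ) < t
        · rw [if_pos hlt, if_pos (by omega)]
        · rw [if_neg hlt, if_neg (by omega)]
    · rw [getElem?_cfg_none M _ i (by omega)]
      symm
      rw [List.getElem?_eq_none_iff]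
      omega

theorem cfg_full_injective {n : ℕ} {M M' : Equiv.Perm (Fin n)} (h : cfg M n = cfg M' n) :
    M = M' := by
  ext i
  have h1 := getElem?_cfg M n i
  have h2 := getElem?_cfg M' n i
  rw [h, h2, if_pos (M i).2, if_pos (M' i).2] at h1
  simpa using h1.symm

theorem cfg_swap {n : ℕ} (M : Equiv.Perm (Fin n)) (t : ℕ) (a b : Fin n) (ha : t ≤ (a : ℕ))
    (hb : t ≤ (b : ℕ)) : cfg (Equiv.swap a b * M) t = cfg M t := by
  have key : ∀ v : Fin n, (if ((Equiv.swap a b v : Fin n) : ℕ) < t then
      some ((Equiv.swap a b v : Fin n) : ℕ) else none) = if (v : ℕ) < t then some (v : ℕ) else none := by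
    intro v
    by_cases h1 : v = a
    · rw [h1, Equiv.swap_apply_left, if_neg (by omega), if_neg (by omega)]
    · by_cases h2 : v = b
      · rw [h2, Equiv.swap_apply_right, if_neg (by omega), if_neg (by omega)]
      · rw [Equiv.swap_apply_of_ne_of_ne h1 h2]
  unfold cfg
  congr 1
  funext i
  exact key (M i)

open Classical in
theorem card_cnt (P : ℕ → TStr → TStr → Bool) (n k : ℕ) : ∀ (t : ℕ) (L : TStr), t + k = n →
    (∃ M : Equiv.Perm (Fin n), cfg M t = L) →
    (Finset.univ.filter fun M : Equiv.Perm (Fin n) =>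
      cfg M t = L ∧ ∀ p, t ≤ (M p : ℕ) → Q P M p).card = cnt P k t L := by
  induction k with
  | zero =>
    rintro t L ht ⟨M, hM⟩
    obtain rfl : t = n := by omega
    rw [cnt, Finset.card_eq_one]
    refine ⟨M, ?_⟩
    ext M'
    simp only [Finset.mem_filter, Finset.mem_univ, true_and, Finset.mem_singleton]
    constructor
    · rintro ⟨h, -⟩
      exact cfg_full_injective (h.trans hM.symm)
    · rintro rfl
      exact ⟨hM, fun p hp => absurd (M' p).2 (by omega)⟩
  | succ k ih =>
    rintro t L ht ⟨M, hM⟩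
    have htn : t < n := by omega
    have hlen : L.length = n := by rw [← hM, length_cfg]
    rw [cnt, ssum_eq_sum, hlen, Finset.sum_range]
    rw [Finset.card_eq_sum_card_fiberwise (f := fun M' => M'.symm ⟨t, htn⟩)
      (t := (Finset.univ : Finset (Fin n))) (fun _ _ => Finset.mem_coe.2 (Finset.mem_univ _))]
    apply Finset.sum_congr rfl
    intro p _
    rw [Finset.filter_filter]
    by_cases hp : L[(p : ℕ)]? = some none
    · rw [if_pos hp]
      by_cases hP : P t (L.take p) (L.drop (p + 1)) = true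
      · rw [if_pos hP, ← ih (t + 1) _ (by omega)]
        · congr 1
          ext M'
          simp only [Finset.mem_filter, Finset.mem_univ, true_and]
          rw [← cfg_succ_iff M' t p L hlen hp]
          constructor
          · rintro ⟨⟨h1, h2⟩, h3⟩
            have h4 : M' p = ⟨t, htn⟩ := by rw [← h3, Equiv.apply_symm_apply]
            refine ⟨⟨h1, by rw [h4]⟩, fun q hq => h2 q (by omega)⟩
          · rintro ⟨⟨h1, h2⟩, h3⟩
            have h4 : M' p = ⟨t, htn⟩ := Fin.ext h2
            refine ⟨⟨h1, fun q hq => ?_⟩, by rw [← h4, Equiv.symm_apply_apply]⟩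
            rcases Nat.eq_or_lt_of_le hq with h5 | h5
            · have h6 : q = p := M'.injective (Fin.ext (by rw [← h5, h2]))
              subst h6
              unfold Q
              rw [h2, h1]
              exact hP
            · exact h3 q h5
        · refine ⟨Equiv.swap ⟨t, htn⟩ (M p) * M, ?_⟩
          rw [← cfg_succ_iff _ t p L hlen hp]
          have hMp : t ≤ (M p : ℕ) := by
            have h1 := getElem?_cfg M t p
            rw [hM, hp] at h1
            by_contra hlt
            rw [if_pos (by omega)] at h1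
            simp at h1
          refine ⟨?_, ?_⟩
          · rw [cfg_swap M t _ _ le_rfl hMp, hM]
          · simp
      · rw [if_neg hP, Finset.card_eq_zero, Finset.filter_eq_empty_iff]
        rintro M' - ⟨⟨h1, h2⟩, h3⟩
        have h4 : M' p = ⟨t, htn⟩ := by rw [← h3, Equiv.apply_symm_apply]
        have h5 := h2 p (by rw [h4])
        unfold Q at h5
        rw [h4] at h5
        simp only at h5
        rw [h1] at h5
        exact hP h5
    · rw [if_neg hp, Finset.card_eq_zero, Finset.filter_eq_empty_iff]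
      rintro M' - ⟨⟨h1, h2⟩, h3⟩
      have h4 : M' p = ⟨t, htn⟩ := by rw [← h3, Equiv.apply_symm_apply]
      apply hp
      rw [← h1, getElem?_cfg, h4]
      simp

open Classical in
theorem card_Q (P : ℕ → TStr → TStr → Bool) (n : ℕ) :
    (Finset.univ.filter fun M : Equiv.Perm (Fin n) => ∀ p, Q P M p).card = cnt P n 0 (em n) := by
  rw [← card_cnt P n n 0 (em n) (by omega) ⟨1, ?_⟩]
  · congr 1
    ext M
    simp only [Finset.mem_filter, Finset.mem_univ, true_and]
    constructor
    · intro h
      refine ⟨?_, fun p _ => h p⟩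
      simp [cfg]
    · rintro ⟨-, h⟩ p
      exact h p (Nat.zero_le _)
  · simp [cfg]

/-! ### The rules in terms of the permutation -/

theorem hs_iff {β : Type*} (L : List (Option β)) : hs L = true ↔ ∃ v, L[0]? = some (some v) := by
  rcases L with _ | ⟨c, L⟩
  · simp [hs]
  · cases c <;> simp [hs]

variable {n : ℕ} (M : Equiv.Perm (Fin n))

theorem cfg_some_iff (t j v : ℕ) :
    (cfg M t)[j]? = some (some v) ↔ ∃ b : Fin n, (b : ℕ) = j ∧ (M b : ℕ) = v ∧ v < t := by
  constructor
  · intro h
    have hj : j < n := by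
      by_contra hj
      rw [getElem?_cfg_none M t j (by omega)] at h
      simp at h
    have h1 := getElem?_cfg M t ⟨j, hj⟩
    simp only at h1
    rw [h] at h1
    by_cases hlt : (M ⟨j, hj⟩ : ℕ) < t
    · rw [if_pos hlt] at h1
      simp only [Option.some.injEq] at h1
      exact ⟨⟨j, hj⟩, rfl, h1.symm, by omega⟩
    · rw [if_neg hlt] at h1
      simp at h1
  · rintro ⟨b, rfl, rfl, hv⟩
    rw [getElem?_cfg, if_pos hv]

theorem cfg_none_iff (t j : ℕ) :
    (cfg M t)[j]? = some none ↔ ∃ b : Fin n, (b : ℕ) = j ∧ t ≤ (M b : ℕ) := by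
  constructor
  · intro h
    have hj : j < n := by
      by_contra hj
      rw [getElem?_cfg_none M t j (by omega)] at h
      simp at h
    have h1 := getElem?_cfg M t ⟨j, hj⟩
    simp only at h1
    rw [h] at h1
    by_cases hlt : (M ⟨j, hj⟩ : ℕ) < t
    · rw [if_pos hlt] at h1
      simp at h1
    · exact ⟨⟨j, hj⟩, rfl, by omega⟩
  · rintro ⟨b, rfl, hv⟩
    rw [getElem?_cfg, if_neg (by omega)]

theorem take_some_iff (t p j v : ℕ) : ((cfg M t).take p)[j]? = some (some v) ↔
    ∃ b : Fin n, (b : ℕ) = j ∧ (b : ℕ) < p ∧ (M b : ℕ) = v ∧ v < t := by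
  rw [List.getElem?_take]
  split_ifs with h
  · rw [cfg_some_iff]
    constructor
    · rintro ⟨b, rfl, h1, h2⟩; exact ⟨b, rfl, h, h1, h2⟩
    · rintro ⟨b, rfl, -, h1, h2⟩; exact ⟨b, rfl, h1, h2⟩
  · constructor
    · intro h1; simp at h1
    · rintro ⟨b, rfl, h1, -⟩; exact absurd h1 h

theorem take_none_iff (t p j : ℕ) : ((cfg M t).take p)[j]? = some none ↔
    ∃ b : Fin n, (b : ℕ) = j ∧ (b : ℕ) < p ∧ t ≤ (M b : ℕ) := by
  rw [List.getElem?_take]
  split_ifs with h
  · rw [cfg_none_iff]
    constructor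
    · rintro ⟨b, rfl, h1⟩; exact ⟨b, rfl, h, h1⟩
    · rintro ⟨b, rfl, -, h1⟩; exact ⟨b, rfl, h1⟩
  · constructor
    · intro h1; simp at h1
    · rintro ⟨b, rfl, h1, -⟩; exact absurd h1 h

theorem mem_drop_iff (t p v : ℕ) : some v ∈ (cfg M t).drop (p + 1) ↔
    ∃ c : Fin n, p < (c : ℕ) ∧ (M c : ℕ) = v ∧ v < t := by
  rw [List.mem_iff_getElem?]
  constructor
  · rintro ⟨i, hi⟩
    rw [List.getElem?_drop, cfg_some_iff] at hi
    obtain ⟨b, hb, h1, h2⟩ := hi
    exact ⟨b, by omega, h1, h2⟩
  · rintro ⟨c, hc, h1, h2⟩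
    refine ⟨c - (p + 1), ?_⟩
    rw [List.getElem?_drop, cfg_some_iff]
    exact ⟨c, by omega, h1, h2⟩

theorem mem_take_iff (t p v : ℕ) : some v ∈ (cfg M t).take p ↔
    ∃ c : Fin n, (c : ℕ) < p ∧ (M c : ℕ) = v ∧ v < t := by
  rw [List.mem_iff_getElem?]
  constructor
  · rintro ⟨i, hi⟩
    rw [take_some_iff] at hi
    obtain ⟨b, hb, h0, h1, h2⟩ := hi
    exact ⟨b, h0, h1, h2⟩
  · rintro ⟨c, hc, h1, h2⟩
    refine ⟨c, ?_⟩
    rw [take_some_iff]
    exact ⟨c, rfl, hc, h1, h2⟩

theorem hs_drop_iff (t p : ℕ) : hs ((cfg M t).drop (p + 1)) = true ↔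
    ∃ q : Fin n, (q : ℕ) = p + 1 ∧ (M q : ℕ) < t := by
  rw [hs_iff]
  constructor
  · rintro ⟨v, hv⟩
    rw [List.getElem?_drop, cfg_some_iff] at hv
    obtain ⟨b, hb, h1, h2⟩ := hv
    exact ⟨b, by omega, by omega⟩
  · rintro ⟨q, hq, h1⟩
    refine ⟨M q, ?_⟩
    rw [List.getElem?_drop, cfg_some_iff]
    exact ⟨q, by omega, rfl, h1⟩

theorem ok0I_iff (p : Fin n) : ok0 (flI 0 ((cfg M (M p)).take p)) = true ↔
    ¬ ∃ a b c : Fin n, a < b ∧ b < c ∧ c < p ∧ M c < M b ∧ M b < M p ∧ M p < M a := by
  rw [flI_eq, ok0_flG _ (by simp only [decide_eq_true_eq]; intro x y z h1 h2; omega)]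
  constructor
  · rintro h ⟨a, b, c, hab, hbc, hcp, h1, h2, h3⟩
    have := h a b c (M b) (M c) hab hbc
      ((take_none_iff M _ _ _).2 ⟨a, rfl, by omega, by omega⟩)
      ((take_some_iff M _ _ _ _).2 ⟨b, rfl, by omega, rfl, by omega⟩)
      ((take_some_iff M _ _ _ _).2 ⟨c, rfl, by omega, rfl, by omega⟩)
    rw [decide_eq_true_eq] at this
    omega
  · intro h i j k v w hij hjk hi hj hk
    obtain ⟨a, ha, hap, ha1⟩ := (take_none_iff M _ _ _).1 hi
    obtain ⟨b, hb, hbp, hb1, hb2⟩ := (take_some_iff M _ _ _ _).1 hj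
    obtain ⟨c, hc, hcp, hc1, hc2⟩ := (take_some_iff M _ _ _ _).1 hk
    rw [decide_eq_true_eq]
    by_contra hvw
    apply h
    have hne : M a ≠ M p := fun h => by
      have := M.injective h
      omega
    have hne' : (M a : ℕ) ≠ M p := fun h => hne (Fin.ext h)
    refine ⟨a, b, c, by omega, by omega, by omega, by omega, by omega, by omega⟩

theorem ok0D_iff (p : Fin n) : ok0 (flD 0 ((cfg M (M p)).take p)) = true ↔
    ¬ ∃ a b c : Fin n, a < b ∧ b < c ∧ c < p ∧ M b < M c ∧ M c < M p ∧ M p < M a := by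
  rw [flD_eq, ok0_flG _ (by simp only [decide_eq_true_eq]; intro x y z h1 h2; omega)]
  constructor
  · rintro h ⟨a, b, c, hab, hbc, hcp, h1, h2, h3⟩
    have := h a b c (M b) (M c) hab hbc
      ((take_none_iff M _ _ _).2 ⟨a, rfl, by omega, by omega⟩)
      ((take_some_iff M _ _ _ _).2 ⟨b, rfl, by omega, rfl, by omega⟩)
      ((take_some_iff M _ _ _ _).2 ⟨c, rfl, by omega, rfl, by omega⟩)
    rw [decide_eq_true_eq] at this
    omega
  · intro h i j k v w hij hjk hi hj hk
    obtain ⟨a, ha, hap, ha1⟩ := (take_none_iff M _ _ _).1 hi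
    obtain ⟨b, hb, hbp, hb1, hb2⟩ := (take_some_iff M _ _ _ _).1 hj
    obtain ⟨c, hc, hcp, hc1, hc2⟩ := (take_some_iff M _ _ _ _).1 hk
    rw [decide_eq_true_eq]
    by_contra hvw
    apply h
    have hne : M a ≠ M p := fun h => by
      have := M.injective h
      omega
    have hne' : (M a : ℕ) ≠ M p := fun h => hne (Fin.ext h)
    have hne2 : M b ≠ M c := fun h => by
      have := M.injective h
      omega
    have hne2' : (M b : ℕ) ≠ M c := fun h => hne2 (Fin.ext h)
    refine ⟨a, b, c, by omega, by omega, by omega, by omega, by omega, by omega⟩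

theorem after_of_not_mem (v : ℕ) (L : TStr) (h : some v ∉ L) : after v L = [] := by
  induction L with
  | nil => rfl
  | cons c L ih =>
    rw [List.mem_cons, not_or] at h
    rw [after, if_neg (fun hc => h.1 hc.symm), ih h.2]

theorem after_of_getElem (v : ℕ) (L : TStr) (j : ℕ) (hj : L[j]? = some (some v))
    (huniq : ∀ i, L[i]? = some (some v) → i = j) : after v L = L.drop (j + 1) := by
  induction L generalizing j with
  | nil => simp at hj
  | cons c L ih =>
    by_cases hc : c = some v
    · have : (0 : ℕ) = j := huniq 0 (by simp [hc])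
      subst this
      rw [after, if_pos hc]
      simp
    · rcases j with _ | j
      · simp at hj; exact absurd hj hc
      · rw [after, if_neg hc, List.drop_succ_cons]
        exact ih j (by simpa using hj) (fun i hi => by
          have := huniq (i + 1) (by simpa using hi)
          omega)

theorem Q_PI_true_iff (p : Fin n) : Q (PI true) M p ↔
    (¬ ∃ a b c : Fin n, a < b ∧ b < c ∧ c < p ∧ M c < M b ∧ M b < M p ∧ M p < M a) ∧
    ((∃ c : Fin n, p < c ∧ (M c : ℕ) + 1 = M p) → ∃ q : Fin n, (q : ℕ) = p + 1 ∧ M q < M p) := by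
  unfold Q PI
  simp only [if_true, Bool.and_eq_true, Bool.or_eq_true, Bool.not_eq_true', decide_eq_false_iff_not,
    hs_drop_iff, mem_drop_iff, ok0I_iff]
  refine and_congr Iff.rfl ?_
  constructor
  · rintro h ⟨c, hc, h1⟩
    rcases h with h | h
    · exact absurd ⟨by omega, c, hc, by omega, by omega⟩ h
    · obtain ⟨q, hq, h2⟩ := h
      exact ⟨q, hq, h2⟩
  · intro h
    by_cases hc : ∃ c : Fin n, p < c ∧ (M c : ℕ) + 1 = M p
    · right
      obtain ⟨q, hq, h2⟩ := h hc
      exact ⟨q, hq, h2⟩
    · left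
      rintro ⟨h0, c, hc1, hc2, hc3⟩
      exact hc ⟨c, hc1, by omega⟩

theorem Q_PI_false_iff (p : Fin n) : Q (PI false) M p ↔
    (¬ ∃ a b c : Fin n, a < b ∧ b < c ∧ c < p ∧ M c < M b ∧ M b < M p ∧ M p < M a) ∧
    ((∃ c : Fin n, c < p ∧ (M c : ℕ) + 1 = M p) → ¬ ∃ q : Fin n, (q : ℕ) = p + 1 ∧ M q < M p) := by
  unfold Q PI
  simp only [Bool.false_eq_true, if_false, Bool.and_eq_true, Bool.or_eq_true, Bool.not_eq_true',
    decide_eq_false_iff_not, mem_take_iff, ok0I_iff]
  rw [← Bool.not_eq_true, hs_drop_iff]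
  refine and_congr Iff.rfl ?_
  constructor
  · rintro h ⟨c, hc, h1⟩
    rcases h with h | h
    · exact absurd ⟨by omega, c, hc, by omega, by omega⟩ h
    · rintro ⟨q, hq, h2⟩
      exact h ⟨q, hq, h2⟩
  · intro h
    by_cases hc : ∃ c : Fin n, c < p ∧ (M c : ℕ) + 1 = M p
    · right
      rintro ⟨q, hq, h2⟩
      exact h hc ⟨q, hq, h2⟩
    · left
      rintro ⟨h0, c, hc1, hc2, hc3⟩
      exact hc ⟨c, hc1, by omega⟩

theorem Q_PD_iff (p : Fin n) : Q PD M p ↔
    (¬ ∃ a b c : Fin n, a < b ∧ b < c ∧ c < p ∧ M b < M c ∧ M c < M p ∧ M p < M a) ∧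
    (∀ c : Fin n, p < c → (M c : ℕ) + 1 = M p → (c : ℕ) + 1 = n ∨
      ∃ q : Fin n, (q : ℕ) = c + 1 ∧ M q < M p) := by
  unfold Q PD
  simp only [Bool.and_eq_true, Bool.or_eq_true, ok0D_iff]
  refine and_congr Iff.rfl ?_
  have hafter : ∀ c : Fin n, p < c → (M c : ℕ) + 1 = M p →
      after ((M p : ℕ) - 1) ((cfg M (M p)).drop (p + 1)) = (cfg M (M p)).drop (c + 1) := by
    intro c hc h1
    rw [after_of_getElem _ _ (c - (p + 1))]
    · rw [List.drop_drop]
      congr 1
      omega
    · rw [List.getElem?_drop, cfg_some_iff]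
      exact ⟨c, by omega, by omega, by omega⟩
    · intro i hi
      rw [List.getElem?_drop, cfg_some_iff] at hi
      obtain ⟨b, hb, hb1, hb2⟩ := hi
      have : b = c := M.injective (Fin.ext (by omega))
      subst this
      omega
  constructor
  · intro h c hc h1
    rw [hafter c hc h1] at h
    rcases h with h | h
    · left
      rw [List.isEmpty_iff, List.drop_eq_nil_iff, length_cfg] at h
      omega
    · right
      rw [hs_drop_iff] at h
      obtain ⟨q, hq, h2⟩ := h
      exact ⟨q, hq, h2⟩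
  · intro h
    by_cases hc : ∃ c : Fin n, p < c ∧ (M c : ℕ) + 1 = M p
    · obtain ⟨c, hc, h1⟩ := hc
      rw [hafter c hc h1]
      rcases h c hc h1 with h2 | ⟨q, hq, h2⟩
      · left
        rw [List.isEmpty_iff, List.drop_eq_nil_iff, length_cfg]
        omega
      · right
        rw [hs_drop_iff]
        exact ⟨q, hq, h2⟩
    · left
      rw [after_of_not_mem]
      · rfl
      · rw [mem_drop_iff]
        rintro ⟨c, hc1, hc2, hc3⟩
        exact hc ⟨c, hc1, by omega⟩

/-! ### Patterns -/

theorem contains_iff (σ : Fin 4 → ℕ) (π : Equiv.Perm (Fin n)) : Contains σ π ↔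
    ∃ a b c d : Fin n, a < b ∧ b < c ∧ c < d ∧
      (σ 0 < σ 1 ↔ π a < π b) ∧ (σ 1 < σ 0 ↔ π b < π a) ∧
      (σ 0 < σ 2 ↔ π a < π c) ∧ (σ 2 < σ 0 ↔ π c < π a) ∧
      (σ 0 < σ 3 ↔ π a < π d) ∧ (σ 3 < σ 0 ↔ π d < π a) ∧
      (σ 1 < σ 2 ↔ π b < π c) ∧ (σ 2 < σ 1 ↔ π c < π b) ∧
      (σ 1 < σ 3 ↔ π b < π d) ∧ (σ 3 < σ 1 ↔ π d < π b) ∧
      (σ 2 < σ 3 ↔ π c < π d) ∧ (σ 3 < σ 2 ↔ π d < π c) := by
  constructor
  · rintro ⟨f, hf, h⟩
    exact ⟨f 0, f 1, f 2, f 3, hf (by decide), hf (by decide), hf (by decide),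
      h 0 1, h 1 0, h 0 2, h 2 0, h 0 3, h 3 0, h 1 2, h 2 1, h 1 3, h 3 1, h 2 3, h 3 2⟩
  · rintro ⟨a, b, c, d, hab, hbc, hcd, h01, h10, h02, h20, h03, h30, h12, h21, h13, h31, h23, h32⟩
    refine ⟨![a, b, c, d], ?_, ?_⟩
    · rw [Fin.strictMono_iff_lt_succ]
      intro i
      fin_cases i <;> simpa
    · intro x y
      fin_cases x <;> fin_cases y <;> simp <;> assumption

theorem contains_4213 (π : Equiv.Perm (Fin n)) : Contains ![4, 2, 1, 3] π ↔
    ∃ a b c d : Fin n, a < b ∧ b < c ∧ c < d ∧ π c < π b ∧ π b < π d ∧ π d < π a := by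
  rw [contains_iff]
  constructor
  · rintro ⟨a, b, c, d, hab, hbc, hcd, h⟩
    simp at h
    exact ⟨a, b, c, d, hab, hbc, hcd, by omega, by omega, by omega⟩
  · rintro ⟨a, b, c, d, hab, hbc, hcd, h1, h2, h3⟩
    refine ⟨a, b, c, d, hab, hbc, hcd, ?_⟩
    simp
    omega

theorem contains_4132 (π : Equiv.Perm (Fin n)) : Contains ![4, 1, 3, 2] π ↔
    ∃ a b c d : Fin n, a < b ∧ b < c ∧ c < d ∧ π b < π d ∧ π d < π c ∧ π c < π a := by
  rw [contains_iff]
  constructor
  · rintro ⟨a, b, c, d, hab, hbc, hcd, h⟩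
    simp at h
    exact ⟨a, b, c, d, hab, hbc, hcd, by omega, by omega, by omega⟩
  · rintro ⟨a, b, c, d, hab, hbc, hcd, h1, h2, h3⟩
    refine ⟨a, b, c, d, hab, hbc, hcd, ?_⟩
    simp
    omega

theorem contains_3214 (π : Equiv.Perm (Fin n)) : Contains ![3, 2, 1, 4] π ↔
    ∃ a b c d : Fin n, a < b ∧ b < c ∧ c < d ∧ π c < π b ∧ π b < π a ∧ π a < π d := by
  rw [contains_iff]
  constructor
  · rintro ⟨a, b, c, d, hab, hbc, hcd, h⟩
    simp at h
    exact ⟨a, b, c, d, hab, hbc, hcd, by omega, by omega, by omega⟩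
  · rintro ⟨a, b, c, d, hab, hbc, hcd, h1, h2, h3⟩
    refine ⟨a, b, c, d, hab, hbc, hcd, ?_⟩
    simp
    omega

/-- The bijection for 4132. -/
def eC (n : ℕ) : Equiv.Perm (Fin n) ≃ Equiv.Perm (Fin n) where
  toFun π := (Fin.revPerm * π * Fin.revPerm)⁻¹
  invFun M := Fin.revPerm * M⁻¹ * Fin.revPerm
  left_inv π := by
    ext x; simp
  right_inv M := by
    ext x; simp [mul_assoc]

theorem eC_apply (π : Equiv.Perm (Fin n)) (y : Fin n) :
    eC n π (Fin.rev (π y)) = Fin.rev y := by
  simp [eC, mul_inv_rev]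

theorem eC_apply' (π : Equiv.Perm (Fin n)) (u : Fin n) :
    π (Fin.rev (eC n π u)) = Fin.rev u := by
  obtain ⟨y, rfl⟩ : ∃ y, Fin.rev (π y) = u := ⟨π.symm (Fin.rev u), by simp⟩
  rw [eC_apply, Fin.rev_rev, Fin.rev_rev]

/-- The bijection for 3214. -/
def eA (n : ℕ) : Equiv.Perm (Fin n) ≃ Equiv.Perm (Fin n) where
  toFun π := π⁻¹ * Fin.revPerm
  invFun M := Fin.revPerm * M⁻¹
  left_inv π := by
    ext x; simp [mul_inv_rev]
  right_inv M := by
    ext x; simp [mul_inv_rev]

theorem eA_apply (π : Equiv.Perm (Fin n)) (y : Fin n) :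
    eA n π (Fin.rev (π y)) = y := by
  simp [eA]

theorem eA_apply' (π : Equiv.Perm (Fin n)) (u : Fin n) :
    π (eA n π u) = Fin.rev u := by
  obtain ⟨y, rfl⟩ : ∃ y, Fin.rev (π y) = u := ⟨π.symm (Fin.rev u), by simp⟩
  rw [eA_apply, Fin.rev_rev]

theorem condB (π : Equiv.Perm (Fin n)) :
    (IsFishburn π ∧ ¬ Contains ![4, 2, 1, 3] π) ↔ ∀ p, Q (PI true) π p := by
  rw [contains_4213]
  constructor
  · rintro ⟨hF, hA⟩ p
    rw [Q_PI_true_iff]
    refine ⟨?_, ?_⟩
    · rintro ⟨a, b, c, hab, hbc, hcp, h1, h2, h3⟩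
      exact hA ⟨a, b, c, p, hab, hbc, hcp, h1, h2, h3⟩
    · rintro ⟨c, hc, h1⟩
      have hp1 : (p : ℕ) + 1 < n := by omega
      refine ⟨⟨p + 1, hp1⟩, rfl, ?_⟩
      by_contra hlt
      have hne : π ⟨p + 1, hp1⟩ ≠ π p := fun h => by
        have := congrArg Fin.val (π.injective h)
        simp at this
      rcases Nat.eq_or_lt_of_le (show (p : ℕ) + 1 ≤ c by omega) with h2 | h2
      · have : (⟨p + 1, hp1⟩ : Fin n) = c := Fin.ext h2
        rw [this] at hlt
        omega
      · apply hF
        refine ⟨p, ⟨p + 1, hp1⟩, c, rfl, h2, h1, ?_⟩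
        exact lt_of_le_of_ne (not_lt.1 hlt) hne.symm
  · intro h
    refine ⟨?_, ?_⟩
    · rintro ⟨i, i', j, hi', hj, h1, h2⟩
      obtain ⟨q, hq, h3⟩ := ((Q_PI_true_iff π i).1 (h i)).2 ⟨j, by omega, h1⟩
      have : q = i' := Fin.ext (by omega)
      rw [this] at h3
      omega
    · rintro ⟨a, b, c, d, hab, hbc, hcd, h1, h2, h3⟩
      exact ((Q_PI_true_iff π d).1 (h d)).1 ⟨a, b, c, hab, hbc, hcd, h1, h2, h3⟩

theorem condC (π : Equiv.Perm (Fin n)) :
    (IsFishburn π ∧ ¬ Contains ![4, 1, 3, 2] π) ↔ ∀ p, Q (PI false) (eC n π) p := by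
  rw [contains_4132]
  set M := eC n π with hM
  constructor
  · rintro ⟨hF, hA⟩ p
    rw [Q_PI_false_iff]
    refine ⟨?_, ?_⟩
    · rintro ⟨a, b, c, hab, hbc, hcp, h1, h2, h3⟩
      apply hA
      refine ⟨Fin.rev (M a), Fin.rev (M p), Fin.rev (M b), Fin.rev (M c), ?_, ?_, ?_, ?_, ?_, ?_⟩
      · rwa [Fin.rev_lt_rev]
      · rwa [Fin.rev_lt_rev]
      · rwa [Fin.rev_lt_rev]
      · rw [eC_apply', eC_apply', Fin.rev_lt_rev]; exact hcp
      · rw [eC_apply', eC_apply', Fin.rev_lt_rev]; exact hbc
      · rw [eC_apply', eC_apply', Fin.rev_lt_rev]; exact hab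
    · rintro ⟨i, hi, h1⟩ ⟨q, hq, h2⟩
      have hne : M q ≠ M i := fun h => by
        have := congrArg Fin.val (M.injective h)
        omega
      have hne' : (M q : ℕ) ≠ M i := fun h => hne (Fin.ext h)
      apply hF
      refine ⟨Fin.rev (M p), Fin.rev (M i), Fin.rev (M q), ?_, ?_, ?_, ?_⟩
      · simp only [Fin.val_rev]; omega
      · simp only [Fin.val_rev]; omega
      · rw [eC_apply', eC_apply']; simp only [Fin.val_rev]; omega
      · rw [eC_apply', eC_apply', Fin.rev_lt_rev]; exact hi
  · intro h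
    refine ⟨?_, ?_⟩
    · rintro ⟨i, i', j, hi', hj, h1, h2⟩
      have h3 := ((Q_PI_false_iff M (Fin.rev (π i))).1 (h _)).2
      apply h3 ⟨Fin.rev (π i'), by rwa [Fin.rev_lt_rev], ?_⟩
      · refine ⟨Fin.rev (π j), ?_, ?_⟩
        · simp only [Fin.val_rev]; omega
        · rw [eC_apply, eC_apply, Fin.rev_lt_rev]; omega
      · rw [eC_apply, eC_apply]; simp only [Fin.val_rev]; omega
    · rintro ⟨a, b, c, d, hab, hbc, hcd, h1, h2, h3⟩
      apply ((Q_PI_false_iff M (Fin.rev (π b))).1 (h _)).1
      refine ⟨Fin.rev (π a), Fin.rev (π c), Fin.rev (π d), ?_, ?_, ?_, ?_, ?_, ?_⟩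
      · rwa [Fin.rev_lt_rev]
      · rwa [Fin.rev_lt_rev]
      · rwa [Fin.rev_lt_rev]
      · rw [eC_apply, eC_apply, Fin.rev_lt_rev]; exact hcd
      · rw [eC_apply, eC_apply, Fin.rev_lt_rev]; exact hbc
      · rw [eC_apply, eC_apply, Fin.rev_lt_rev]; exact hab

theorem condA (π : Equiv.Perm (Fin n)) :
    (IsFishburn π ∧ ¬ Contains ![3, 2, 1, 4] π) ↔ ∀ p, Q PD (eA n π) p := by
  rw [contains_3214]
  set M := eA n π with hM
  constructor
  · rintro ⟨hF, hA⟩ p
    rw [Q_PD_iff]
    refine ⟨?_, ?_⟩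
    · rintro ⟨a, b, c, hab, hbc, hcp, h1, h2, h3⟩
      apply hA
      refine ⟨M b, M c, M p, M a, h1, h2, h3, ?_, ?_, ?_⟩
      · rw [eA_apply', eA_apply', Fin.rev_lt_rev]; exact hcp
      · rw [eA_apply', eA_apply', Fin.rev_lt_rev]; exact hbc
      · rw [eA_apply', eA_apply', Fin.rev_lt_rev]; exact hab
    · intro j hj h1
      by_cases hjn : (j : ℕ) + 1 = n
      · exact Or.inl hjn
      right
      have hj1 : (j : ℕ) + 1 < n := by omega
      refine ⟨⟨j + 1, hj1⟩, rfl, ?_⟩
      by_contra hlt
      have hne : M ⟨j + 1, hj1⟩ ≠ M p := fun h => by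
        have := congrArg Fin.val (M.injective h)
        simp at this
        omega
      have hne' : (M ⟨j + 1, hj1⟩ : ℕ) ≠ M p := fun h => hne (Fin.ext h)
      apply hF
      refine ⟨M j, M p, M ⟨j + 1, hj1⟩, by omega, by omega, ?_, ?_⟩
      · rw [eA_apply', eA_apply']; simp only [Fin.val_rev]; omega
      · rw [eA_apply', eA_apply', Fin.rev_lt_rev]; exact hj
  · intro h
    refine ⟨?_, ?_⟩
    · rintro ⟨i, i', j, hi', hj, h1, h2⟩
      have h3 := ((Q_PD_iff M (Fin.rev (π i'))).1 (h _)).2 (Fin.rev (π i))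
        (by rwa [Fin.rev_lt_rev]) (by rw [eA_apply, eA_apply]; omega)
      rcases h3 with h3 | ⟨q, hq, h4⟩
      · simp only [Fin.val_rev] at h3
        omega
      · have hqj : q = Fin.rev (π j) := Fin.ext (by simp only [Fin.val_rev] at hq ⊢; omega)
        rw [hqj, eA_apply, eA_apply] at h4
        omega
    · rintro ⟨a, b, c, d, hab, hbc, hcd, h1, h2, h3⟩
      apply ((Q_PD_iff M (Fin.rev (π c))).1 (h _)).1
      refine ⟨Fin.rev (π d), Fin.rev (π a), Fin.rev (π b), ?_, ?_, ?_, ?_, ?_, ?_⟩
      · rwa [Fin.rev_lt_rev]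
      · rwa [Fin.rev_lt_rev]
      · rwa [Fin.rev_lt_rev]
      · rw [eA_apply, eA_apply]; exact hab
      · rw [eA_apply, eA_apply]; exact hbc
      · rw [eA_apply, eA_apply]; exact hcd

theorem card_filter_equiv (e : Equiv.Perm (Fin n) ≃ Equiv.Perm (Fin n))
    (p q : Equiv.Perm (Fin n) → Prop) [DecidablePred p] [DecidablePred q] (h : ∀ π, p π ↔ q (e π)) :
    (Finset.univ.filter p).card = (Finset.univ.filter q).card := by
  refine Finset.card_bij (fun π _ => e π) ?_ ?_ ?_
  · intro π hπ
    simp only [Finset.mem_filter, Finset.mem_univ, true_and] at hπ ⊢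
    exact (h π).1 hπ
  · intro π _ π' _ h
    exact e.injective h
  · intro M hM
    simp only [Finset.mem_filter, Finset.mem_univ, true_and] at hM
    exact ⟨e.symm M, by simp [h, hM], by simp⟩

end Perm34

open Perm34

theorem card_A (n : ℕ) : (FS n ![3, 2, 1, 4]).card = cnt PD n 0 (em n) := by
  rw [← card_Q PD n]
  unfold FS
  have h := @card_filter_equiv n (eA n) (fun π => IsFishburn π ∧ ¬ Contains ![3, 2, 1, 4] π)
    (fun M => ∀ p, Q PD M p) (fun _ => Classical.propDecidable _)
    (fun _ => Classical.propDecidable _) (fun π => condA π)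
  convert h

theorem card_B (n : ℕ) : (FS n ![4, 2, 1, 3]).card = cnt (PI true) n 0 (em n) := by
  rw [← card_Q (PI true) n]
  unfold FS
  have h := @card_filter_equiv n (Equiv.refl _) (fun π => IsFishburn π ∧ ¬ Contains ![4, 2, 1, 3] π)
    (fun M => ∀ p, Q (PI true) M p) (fun _ => Classical.propDecidable _)
    (fun _ => Classical.propDecidable _) (fun π => condB π)
  convert h

theorem card_C (n : ℕ) : (FS n ![4, 1, 3, 2]).card = cnt (PI false) n 0 (em n) := by
  rw [← card_Q (PI false) n]
  unfold FS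
  have h := @card_filter_equiv n (eC n) (fun π => IsFishburn π ∧ ¬ Contains ![4, 1, 3, 2] π)
    (fun M => ∀ p, Q (PI false) M p) (fun _ => Classical.propDecidable _)
    (fun _ => Classical.propDecidable _) (fun π => condC π)
  convert h

end Pool.Agent.Helper13.Fish
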